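import Mathlib

/-!
# Zero-free strips and the sign structure of second differences of 0/1 walks
-/

namespace Pool.Agent.MTL

open Finset

/-- second difference of an integer sequence -/
def ddZ (S : ℤ → ℤ) (m k : ℤ) : ℤ := S (m + k) + S (m - k) - 2 * S m

/-- all steps of `S` are `0` or `1` -/
def Steps (S : ℤ → ℤ) : Prop := ∀ i, S (i + 1) - S i = 0 ∨ S (i + 1) - S i = 1

lemma ddZ_vert {S : ℤ → ℤ} (hS : Steps S) (m k : ℤ) :
    ddZ S m (k + 1) - ddZ S m k ≤ 1 ∧ -1 ≤ ddZ S m (k + 1) - ddZ S m k := by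
  have h1 := hS (m + k)
  have h2 := hS (m - (k + 1))
  have e1 : m - (k + 1) + 1 = m - k := by ring
  have e2 : m + k + 1 = m + (k + 1) := by ring
  rw [e1] at h2
  rw [e2] at h1
  unfold ddZ
  omega

/-- along a column without zeros the sign is constant -/
lemma col_sign {S : ℤ → ℤ} (hS : Steps S) (m r0 r1 : ℤ)
    (hne : ∀ κ, r0 ≤ κ → κ ≤ r1 → ddZ S m κ ≠ 0) (κ : ℤ) (h0 : r0 ≤ κ) :
    κ ≤ r1 → (0 < ddZ S m κ ↔ 0 < ddZ S m r0) := by
  induction κ, h0 using Int.leInduction with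
  | base => intro _; exact Iff.rfl
  | succ κ h ih =>
    intro h1
    rw [← ih (by omega)]
    have v := ddZ_vert hS m κ
    have n1 := hne κ h (by omega)
    have n2 := hne (κ + 1) (by omega) h1
    omega

lemma col_sign' {S : ℤ → ℤ} (hS : Steps S) (m r0 r1 : ℤ)
    (hne : ∀ κ, r0 ≤ κ → κ ≤ r1 → ddZ S m κ ≠ 0) {s : ℤ} (hs : s = 1 ∨ s = -1)
    (κ κ' : ℤ) (h0 : r0 ≤ κ) (h1 : κ ≤ r1) (h0' : r0 ≤ κ') (h1' : κ' ≤ r1)
    (h : 0 < s * ddZ S m κ) : 0 < s * ddZ S m κ' := by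
  have e1 := col_sign hS m r0 r1 hne κ h0 h1
  have e2 := col_sign hS m r0 r1 hne κ' h0' h1'
  have n1 := hne κ h0 h1
  have n2 := hne κ' h0' h1'
  have e3 := e1.trans e2.symm
  rcases hs with rfl | rfl
  · have : 0 < ddZ S m κ := by linarith
    have := e3.mp this
    linarith
  · have h3 : ddZ S m κ < 0 := by linarith
    have h4 : ¬ 0 < ddZ S m κ' := fun h5 => by
      have := e3.mpr h5
      omega
    omega

/-- one step along a strip -/
lemma strip_step {S : ℤ → ℤ} (hS : Steps S) (p : ℤ) :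
    ∃ σ : ℤ, (σ = 1 ∨ σ = -1) ∧ ∀ m : ℤ, ddZ S m (p - m) ≠ 0 → ddZ S m (p - 1 - m) ≠ 0 →
      σ * ddZ S (m + 1) (p - (m + 1)) < 0 → σ * ddZ S m (p - m) < 0 := by
  have hp := hS (p - 1)
  have e0 : p - 1 + 1 = p := by ring
  rw [e0] at hp
  have aux : ∀ m : ℤ, ddZ S m (p - m) = S p + S (2 * m - p) - 2 * S m ∧
      ddZ S m (p - 1 - m) = S (p - 1) + S (2 * m - p + 1) - 2 * S m ∧
      ddZ S (m + 1) (p - (m + 1)) = S p + S (2 * m - p + 1 + 1) - 2 * S (m + 1) := by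
    intro m
    unfold ddZ
    refine ⟨?_, ?_, ?_⟩
    · have e1 : m + (p - m) = p := by ring
      have e2 : m - (p - m) = 2 * m - p := by ring
      rw [e1, e2]
    · have e1 : m + (p - 1 - m) = p - 1 := by ring
      have e2 : m - (p - 1 - m) = 2 * m - p + 1 := by ring
      rw [e1, e2]
    · have e1 : m + 1 + (p - (m + 1)) = p := by ring
      have e2 : m + 1 - (p - (m + 1)) = 2 * m - p + 1 + 1 := by ring
      rw [e1, e2]
  rcases hp with hp | hp
  · refine ⟨-1, Or.inr rfl, fun m n1 n2 h => ?_⟩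
    obtain ⟨a1, a2, a3⟩ := aux m
    rw [a1] at n1 ⊢
    rw [a2] at n2
    rw [a3] at h
    have h1 := hS m
    have h2 := hS (2 * m - p)
    have h3 := hS (2 * m - p + 1)
    omega
  · refine ⟨1, Or.inl rfl, fun m n1 n2 h => ?_⟩
    obtain ⟨a1, a2, a3⟩ := aux m
    rw [a1] at n1 ⊢
    rw [a2] at n2
    rw [a3] at h
    have h1 := hS m
    have h2 := hS (2 * m - p)
    have h3 := hS (2 * m - p + 1)
    omega

/-- the strip lemma -/
lemma strip {S : ℤ → ℤ} (hS : Steps S) (p : ℤ) :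
    ∃ σ : ℤ, (σ = 1 ∨ σ = -1) ∧ ∀ m1 m2 : ℤ, m1 ≤ m2 →
      (∀ m, m1 ≤ m → m < m2 → ddZ S m (p - m) ≠ 0 ∧ ddZ S m (p - 1 - m) ≠ 0) →
      σ * ddZ S m2 (p - m2) < 0 → σ * ddZ S m1 (p - m1) < 0 := by
  obtain ⟨σ, hσ, hstep⟩ := strip_step hS p
  refine ⟨σ, hσ, fun m1 m2 h12 => ?_⟩
  induction m2, h12 using Int.leInduction with
  | base => intro _ h; exact h
  | succ m2 h ih =>
    intro hne hlt
    refine ih (fun m h1 h2 => hne m h1 (by omega)) ?_
    have := hne m2 h (by omega)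
    exact hstep m2 this.1 this.2 hlt

/-- a set of at most `z` integers misses one of `z+1` consecutive integers -/
lemma exists_good (B : Finset ℤ) (z : ℕ) (hB : B.card ≤ z) (x : ℤ) :
    ∃ y, x ≤ y ∧ y ≤ x + z ∧ y ∉ B := by
  by_contra hcon
  push Not at hcon
  have hsub : Icc x (x + z) ⊆ B := by
    intro y hy
    rw [mem_Icc] at hy
    exact hcon y hy.1 hy.2
  have := card_le_card hsub
  rw [Int.card_Icc] at this
  omega

/-- interior of an interval all of whose good columns have the same sign -/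
lemma interior {S : ℤ → ℤ} (hS : Steps S) (c d r0 r1 : ℤ) (z : ℕ) (Bc Ba : Finset ℤ)
    (hBc : Bc.card ≤ z)
    (hZ : ∀ m κ, c ≤ m → m < d → r0 ≤ κ → κ ≤ r1 → ddZ S m κ = 0 →
      m ∈ Bc ∧ m + κ ∈ Ba ∧ m + κ + 1 ∈ Ba)
    {s : ℤ} (hs : s = 1 ∨ s = -1)
    (hgood : ∀ m κ, c ≤ m → m < d → m ∉ Bc → r0 ≤ κ → κ ≤ r1 → 0 < s * ddZ S m κ)
    (m κ : ℤ) (h1 : c + z + 1 ≤ m) (h2 : m + z + 1 < d) (h3 : r0 + z + 1 ≤ κ)
    (h4 : κ ≤ r1 - z - 1) : 1 ≤ s * ddZ S m κ ∨ (m ∈ Bc ∧ m + κ ∈ Ba) := by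
  by_cases hm : m ∈ Bc
  · by_cases ha : m + κ ∈ Ba
    · exact Or.inr ⟨hm, ha⟩
    left
    obtain ⟨m1, a1, a2, a3⟩ := exists_good Bc z hBc (m - z - 1)
    obtain ⟨m2, b1, b2, b3⟩ := exists_good Bc z hBc (m + 1)
    obtain ⟨σ, hσ, hst⟩ := strip hS (m + κ)
    have hfree : ∀ x, m1 ≤ x → x < m2 → ddZ S x (m + κ - x) ≠ 0 ∧
        ddZ S x (m + κ - 1 - x) ≠ 0 := by
      intro x hx1 hx2
      constructor
      · intro h0
        have := (hZ x (m + κ - x) (by omega) (by omega) (by omega) (by omega) h0).2.1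
        have e : x + (m + κ - x) = m + κ := by ring
        rw [e] at this
        exact ha this
      · intro h0
        have := (hZ x (m + κ - 1 - x) (by omega) (by omega) (by omega) (by omega) h0).2.2
        have e : x + (m + κ - 1 - x) + 1 = m + κ := by ring
        rw [e] at this
        exact ha this
    have g1 := hgood m1 (m + κ - m1) (by omega) (by omega) a3 (by omega) (by omega)
    have g2 := hgood m2 (m + κ - m2) (by omega) (by omega) b3 (by omega) (by omega)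
    have f1 := hst m1 m (by omega) (fun x hx1 hx2 => hfree x hx1 (by omega))
    have f2 := hst m m2 (by omega) (fun x hx1 hx2 => hfree x (by omega) hx2)
    have e : m + κ - m = κ := by ring
    rw [e] at f1 f2
    have hne : ddZ S m κ ≠ 0 := by
      have := (hfree m (by omega) (by omega)).1
      rwa [e] at this
    have hsne : s * ddZ S m κ ≠ 0 := by
      rcases hs with rfl | rfl <;> omega
    by_contra hcon
    have hneg : s * ddZ S m κ < 0 := by omega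
    have hcase : σ = s ∨ σ = -s := by
      rcases hs with rfl | rfl <;> rcases hσ with rfl | rfl <;> simp
    rcases hcase with rfl | rfl
    · have := f1 hneg
      linarith
    · have := f2 (by linarith)
      linarith
  · left
    have := hgood m κ (by omega) (by omega) hm (by omega) (by omega)
    omega

/-- the sign structure on a window with few zeros -/
theorem sign_structure {S : ℤ → ℤ} (hS : Steps S) (a b r0 r1 : ℤ) (z : ℕ)
    (Z : Finset (ℤ × ℤ))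
    (hZ : ∀ m κ, a ≤ m → m < b → r0 ≤ κ → κ ≤ r1 → ddZ S m κ = 0 → (m, κ) ∈ Z)
    (hz : Z.card ≤ z) (hr : (b - a) + 2 * z ≤ r1 - r0) (hab : a ≤ b) :
    ∃ (t s1 s2 : ℤ) (Bc Ba : Finset ℤ), a ≤ t ∧ t ≤ b ∧ (s1 = 1 ∨ s1 = -1) ∧
      (s2 = 1 ∨ s2 = -1) ∧ Bc.card ≤ z ∧ Ba.card ≤ 2 * z ∧
      ∀ m κ, r0 + z + 1 ≤ κ → κ ≤ r1 - z - 1 →
        ((a + z + 1 ≤ m → m + z + 1 < t →
          (1 ≤ s1 * ddZ S m κ ∨ (m ∈ Bc ∧ m + κ ∈ Ba))) ∧
        (t + z + 1 ≤ m → m + z + 1 < b →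
          (1 ≤ s2 * ddZ S m κ ∨ (m ∈ Bc ∧ m + κ ∈ Ba)))) := by
  classical
  set Bc : Finset ℤ := Z.image Prod.fst with hBcdef
  set Ba : Finset ℤ := Z.image (fun x => x.1 + x.2) ∪ Z.image (fun x => x.1 + x.2 + 1) with hBadef
  have hBc : Bc.card ≤ z := card_image_le.trans hz
  have hBa : Ba.card ≤ 2 * z := by
    have h1 := card_union_le (Z.image (fun x => x.1 + x.2)) (Z.image (fun x => x.1 + x.2 + 1))
    have h2 : (Z.image (fun x => x.1 + x.2)).card ≤ Z.card := card_image_le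
    have h3 : (Z.image (fun x => x.1 + x.2 + 1)).card ≤ Z.card := card_image_le
    rw [hBadef]
    omega
  have hZ' : ∀ m κ, a ≤ m → m < b → r0 ≤ κ → κ ≤ r1 → ddZ S m κ = 0 →
      m ∈ Bc ∧ m + κ ∈ Ba ∧ m + κ + 1 ∈ Ba := by
    intro m κ h1 h2 h3 h4 h5
    have hm := hZ m κ h1 h2 h3 h4 h5
    refine ⟨mem_image.mpr ⟨_, hm, rfl⟩, ?_, ?_⟩
    · exact mem_union_left _ (mem_image.mpr ⟨_, hm, rfl⟩)
    · exact mem_union_right _ (mem_image.mpr ⟨_, hm, rfl⟩)
  obtain ⟨p, p1, p2, p3⟩ := exists_good Ba (2 * z) hBa (r0 + b)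
  push_cast at p2
  obtain ⟨s, hs, hst⟩ := strip hS p
  have hpne : ∀ x, a ≤ x → x < b → ddZ S x (p - x) ≠ 0 ∧ ddZ S x (p - 1 - x) ≠ 0 := by
    intro x hx1 hx2
    constructor
    · intro h0
      have := (hZ' x (p - x) hx1 hx2 (by omega) (by omega) h0).2.1
      have e : x + (p - x) = p := by ring
      rw [e] at this
      exact p3 this
    · intro h0
      have := (hZ' x (p - 1 - x) hx1 hx2 (by omega) (by omega) h0).2.2
      have e : x + (p - 1 - x) + 1 = p := by ring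
      rw [e] at this
      exact p3 this
  have hcolne : ∀ m, a ≤ m → m < b → m ∉ Bc → ∀ κ, r0 ≤ κ → κ ≤ r1 → ddZ S m κ ≠ 0 := by
    intro m h1 h2 h3 κ h4 h5 h6
    exact h3 (hZ' m κ h1 h2 h4 h5 h6).1
  have hsn : -s = 1 ∨ -s = -1 := by rcases hs with rfl | rfl <;> simp
  -- the threshold
  obtain ⟨t, ht1, ht2, htl, htr⟩ : ∃ t, a ≤ t ∧ t ≤ b ∧
      (∀ m, a ≤ m → m < t → m ∉ Bc → ¬ 0 < s * ddZ S m (p - m)) ∧
      (t < b → 0 < s * ddZ S t (p - t)) := by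
    set T := (Ico a b).filter (fun m => m ∉ Bc ∧ 0 < s * ddZ S m (p - m)) with hT
    by_cases hTe : T.Nonempty
    · obtain ⟨t, htT, htm⟩ : ∃ t ∈ T, ∀ m ∈ T, t ≤ m :=
        ⟨T.min' hTe, T.min'_mem hTe, fun m hm => T.min'_le m hm⟩
      have hmem := htT
      rw [hT, mem_filter, mem_Ico] at hmem
      refine ⟨t, hmem.1.1, hmem.1.2.le, ?_, fun _ => hmem.2.2⟩
      intro m h1 h2 h3 h4
      have hmT : m ∈ T := by
        rw [hT, mem_filter, mem_Ico]
        exact ⟨⟨h1, h2.trans hmem.1.2⟩, h3, h4⟩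
      have := htm m hmT
      omega
    · refine ⟨b, hab, le_refl _, ?_, fun h => absurd h (lt_irrefl _)⟩
      intro m h1 h2 h3 h4
      apply hTe
      refine ⟨m, ?_⟩
      rw [hT, mem_filter, mem_Ico]
      exact ⟨⟨h1, h2⟩, h3, h4⟩
  have hL : ∀ m κ, a ≤ m → m < t → m ∉ Bc → r0 ≤ κ → κ ≤ r1 → 0 < (-s) * ddZ S m κ := by
    intro m κ h1 h2 h3 h4 h5
    have n1 := htl m h1 h2 h3
    have n2 := (hpne m h1 (by omega)).1
    refine col_sign' hS m r0 r1 (hcolne m h1 (by omega) h3) hsn (p - m) κ (by omega) (by omega)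
      h4 h5 ?_
    rcases hs with rfl | rfl <;> omega
  have hR : ∀ m κ, t ≤ m → m < b → m ∉ Bc → r0 ≤ κ → κ ≤ r1 → 0 < s * ddZ S m κ := by
    intro m κ h1 h2 h3 h4 h5
    have n2 := (hpne m (by omega) h2).1
    refine col_sign' hS m r0 r1 (hcolne m (by omega) h2 h3) hs (p - m) κ (by omega) (by omega)
      h4 h5 ?_
    by_contra hcon
    have hneg : s * ddZ S m (p - m) < 0 := by
      rcases hs with rfl | rfl <;> omega
    have h6 := hst t m h1 (fun x hx1 hx2 => hpne x (by omega) (by omega)) hneg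
    have h7 := htr (by omega)
    linarith
  refine ⟨t, -s, s, Bc, Ba, ht1, ht2, hsn, hs, hBc, hBa, fun m κ k1 k2 => ⟨fun a1 a2 => ?_,
    fun a1 a2 => ?_⟩⟩
  · exact interior hS a t r0 r1 z Bc Ba hBc
      (fun m κ h1 h2 h3 h4 h5 => hZ' m κ h1 (by omega) h3 h4 h5) hsn hL m κ a1 a2 k1 k2
  · exact interior hS t b r0 r1 z Bc Ba hBc
      (fun m κ h1 h2 h3 h4 h5 => hZ' m κ (by omega) h2 h3 h4 h5) hs hR m κ a1 a2 k1 k2

end Pool.Agent.MTL
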