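import Pool.Agent.MTL.Main
import Pool.Agent.MTL.Sign

/-!
# One cell: the normalised mass of a cell and of its children
-/

namespace Pool.Agent.MTL

open Finset

noncomputable section

/-- the ratio of two consecutive scales -/
@[irreducible] def LN : ℕ := 2 ^ 64

lemma LN_eq : LN = 2 ^ 64 := by unfold LN; rfl

lemma LN_int : (LN : ℤ) = 2 ^ 64 := by rw [LN_eq]; norm_num

lemma LN_real : (LN : ℝ) = 2 ^ 64 := by rw [LN_eq]; norm_num

/-- normalised mass of the cell at `x` of scale `W` -/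
def DD (f : ℤ → ℝ) (W x : ℤ) : ℝ :=
  1 + A f (8 * W) (x - 128 * W) (x + 256 * W) / (1024 * (W : ℝ) ^ 2)

lemma one_le_DD (f : ℤ → ℝ) (W x : ℤ) : 1 ≤ DD f W x := by
  unfold DD
  have := A_nonneg f (8 * W) (x - 128 * W) (x + 256 * W)
  have : 0 ≤ A f (8 * W) (x - 128 * W) (x + 256 * W) / (1024 * (W : ℝ) ^ 2) := by positivity
  linarith

lemma A_neg (f : ℤ → ℝ) (h a b : ℤ) : A (fun i => - f i) h a b = A f h a b := by
  unfold A al
  simp only [dd_neg, abs_neg]

lemma DD_neg (f : ℤ → ℝ) (W x : ℤ) : DD (fun i => - f i) W x = DD f W x := by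
  unfold DD
  rw [A_neg]

lemma A_add (f : ℤ → ℝ) (h : ℤ) {a b c : ℤ} (hab : a ≤ b) (hbc : b ≤ c) :
    A f h a b + A f h b c = A f h a c := by
  unfold A
  rw [← Finset.sum_union (Finset.Ico_disjoint_Ico_consecutive a b c),
    Finset.Ico_union_Ico_eq_Ico hab hbc]

/-- disjoint blocks -/
lemma blocks (f : ℤ → ℝ) (K c l u v : ℤ) (J : Finset ℕ) (hl : 0 < l)
    (h : ∀ j ∈ J, u ≤ c + j * l ∧ c + j * l + l ≤ v) :
    ∑ j ∈ J, A f K (c + j * l) (c + j * l + l) ≤ A f K u v := by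
  classical
  unfold A
  rw [← Finset.sum_biUnion]
  · refine Finset.sum_le_sum_of_subset_of_nonneg ?_ (fun _ _ _ => al_nonneg _ _ _)
    intro m hm
    rw [mem_biUnion] at hm
    obtain ⟨j, hj, hm⟩ := hm
    rw [mem_Ico] at hm ⊢
    have := h j hj
    exact ⟨by linarith, by linarith⟩
  · intro i _ j _ hij
    change Disjoint (Ico (c + (i : ℤ) * l) (c + i * l + l)) (Ico (c + (j : ℤ) * l) (c + j * l + l))
    rw [Finset.disjoint_left]
    intro m h1 h2
    rw [mem_Ico] at h1 h2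
    rcases Nat.lt_or_gt_of_ne hij with h3 | h3
    · have h4 : (i : ℤ) + 1 ≤ j := by exact_mod_cast h3
      have := mul_le_mul_of_nonneg_right h4 hl.le
      linarith
    · have h4 : (j : ℤ) + 1 ≤ i := by exact_mod_cast h3
      have := mul_le_mul_of_nonneg_right h4 hl.le
      linarith

lemma windows3 (f : ℤ → ℝ) (K x l u v : ℤ) (J : Finset ℕ) (hl : 0 < l)
    (h : ∀ j ∈ J, u ≤ x + j * l - l ∧ x + j * l + 2 * l ≤ v) :
    ∑ j ∈ J, A f K (x + j * l - l) (x + j * l + 2 * l) ≤ 3 * A f K u v := by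
  have e : ∀ j ∈ J, A f K (x + j * l - l) (x + j * l + 2 * l) =
      A f K (x - l + j * l) (x - l + j * l + l) + A f K (x + j * l) (x + j * l + l) +
      A f K (x + l + j * l) (x + l + j * l + l) := by
    intro j _
    have e1 : x + j * l - l = x - l + j * l := by ring
    have e2 : x - l + j * l + l = x + j * l := by ring
    have e3 : x + j * l + l = x + l + j * l := by ring
    have e4 : x + l + j * l + l = x + j * l + 2 * l := by ring
    rw [e1, ← e4, ← A_add f K (a := x - l + j * l) (b := x + l + j * l) (c := x + l + j * l + l)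
      (by linarith) (by linarith), ← A_add f K (a := x - l + j * l) (b := x + j * l)
      (c := x + l + j * l) (by linarith) (by linarith), e2, e3]
  rw [Finset.sum_congr rfl e, Finset.sum_add_distrib, Finset.sum_add_distrib]
  have b1 := blocks f K (x - l) l u v J hl (fun j hj => by
    have := h j hj; exact ⟨by linarith, by linarith⟩)
  have b2 := blocks f K x l u v J hl (fun j hj => by
    have := h j hj; exact ⟨by linarith, by linarith⟩)
  have b3 := blocks f K (x + l) l u v J hl (fun j hj => by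
    have := h j hj; exact ⟨by linarith, by linarith⟩)
  linarith

/-- any child -/
lemma child_any (f : ℤ → ℝ) (W x : ℤ) (hW : 1 ≤ W) (j : ℕ) (hj : j < LN) :
    DD f W (x + j * (128 * W)) ≤ 4 * LN * DD f (LN * W) x := by
  have hLi := LN_int
  have hLr := LN_real
  have hW0 : (0 : ℤ) < W := by linarith
  have hWr : (0 : ℝ) < W := by exact_mod_cast hW0
  have hj' : (j : ℤ) + 1 ≤ LN := by exact_mod_cast hj
  have hjW : ((j : ℤ) + 1) * W ≤ LN * W := mul_le_mul_of_nonneg_right hj' hW0.le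
  have hj0 : (0 : ℤ) ≤ j * W := by positivity
  have hLW : (2 : ℤ) ^ 64 * W = LN * W := by rw [hLi]
  have hal := A_le f (2 * (LN * W)) (8 * W) (x + j * (128 * W) - 128 * W)
    (x + j * (128 * W) + 256 * W) (by linarith) (by nlinarith)
  have e1 : 4 * (2 * ((LN : ℤ) * W)) = 8 * (LN * W) := by ring
  rw [e1] at hal
  have hmono := A_mono f (8 * (LN * W)) (a := x + j * (128 * W) - 128 * W - 2 * (8 * W))
    (b := x + j * (128 * W) + 256 * W + 2 * (8 * W)) (a' := x - 128 * (LN * W))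
    (b' := x + 256 * (LN * W)) (by nlinarith) (by nlinarith)
  unfold DD
  set a1 := A f (8 * W) (x + j * (128 * W) - 128 * W) (x + j * (128 * W) + 256 * W) with ha1
  set a2 := A f (8 * (LN * W)) (x - 128 * (LN * W)) (x + 256 * (LN * W)) with ha2
  have h3 : (LN : ℝ) * a1 ≤ 4 * a2 := by
    push_cast at hal
    have h4 : (8 * (W : ℝ)) * A f (8 * (LN * W)) (x + j * (128 * W) - 128 * W - 2 * (8 * W))
        (x + j * (128 * W) + 256 * W + 2 * (8 * W)) ≤ 8 * W * a2 :=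
      mul_le_mul_of_nonneg_left hmono (by positivity)
    have h5 : (2 * (W : ℝ)) * (LN * a1) ≤ (2 * W) * (4 * a2) := by linarith
    exact le_of_mul_le_mul_left h5 (by positivity)
  have hLp : (0 : ℝ) < LN := by rw [hLr]; positivity
  have hL1 : (1 : ℝ) ≤ LN := by rw [hLr]; norm_num
  push_cast
  have e2 : 4 * (LN : ℝ) * (1 + a2 / (1024 * ((LN : ℝ) * W) ^ 2)) =
      4 * LN + (4 * a2 / LN) / (1024 * W ^ 2) := by
    field_simp
  rw [e2]
  have h6 : a1 ≤ 4 * a2 / LN := by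
    rw [le_div_iff₀ hLp]
    linarith
  have h7 : a1 / (1024 * (W : ℝ) ^ 2) ≤ (4 * a2 / LN) / (1024 * W ^ 2) :=
    div_le_div_of_nonneg_right h6 (by positivity)
  linarith

/-- the children on a sign-constant side -/
lemma side (f : ℤ → ℝ) (W x u v : ℤ) (z : ℕ) (Bc Ba : Finset ℤ) (J : Finset ℕ)
    (hW : 1 ≤ W) (hz : 2 ^ 125 * (z : ℤ) ≤ W) (hBc : Bc.card ≤ z) (hBa : Ba.card ≤ 2 * z)
    (hyp : ∀ m κ, u - 8 * (LN * W) ≤ m → m < v + 8 * (LN * W) → 6 * W ≤ κ →
      κ ≤ 4 * (LN * W) → (1 ≤ dd f m κ ∨ (m ∈ Bc ∧ m + κ ∈ Ba)))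
    (hJ : ∀ j ∈ J, u ≤ x + (j : ℤ) * (128 * W) - 128 * W ∧
      x + (j : ℤ) * (128 * W) + 256 * W ≤ v)
    (hu : x - 128 * (LN * W) ≤ u - 8 * (LN * W)) (hv : v + 8 * (LN * W) ≤ x + 256 * (LN * W)) :
    (LN : ℝ) * ∑ j ∈ J, DD f W (x + j * (128 * W)) ≤ 1656 * DD f (LN * W) x := by
  have hLi := LN_int
  have hLr := LN_real
  have hW0 : (0 : ℤ) < W := by linarith
  have hWr : (0 : ℝ) < W := by exact_mod_cast hW0
  have hzr : 2 ^ 125 * (z : ℝ) ≤ W := by exact_mod_cast hz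
  have hz0 : (0 : ℝ) ≤ z := Nat.cast_nonneg z
  have hLW : (2 : ℤ) ^ 64 * W = LN * W := by rw [hLi]
  have hzi : (0 : ℤ) ≤ z := by positivity
  -- main estimate
  have hq : 2 * ((LN : ℤ) * W) = 2 ^ (61 + 1) * (8 * W) := by rw [hLi]; ring
  have e1 : 4 * (2 * ((LN : ℤ) * W)) = 8 * (LN * W) := by ring
  have e2 : 2 * (2 * ((LN : ℤ) * W)) = 4 * (LN * W) := by ring
  have hBa' : 4 * (Ba.card : ℤ) ≤ W := by
    have : (Ba.card : ℤ) ≤ 2 * z := by exact_mod_cast hBa
    linarith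
  have me := main_est f W u v (2 * (LN * W)) z 61 Bc Ba hW (by norm_num) hBa' hBc hq
    (by rw [e1, e2]; exact hyp)
  rw [e1] at me
  have hX := A_mono f (8 * (LN * W)) (a := u - 8 * (LN * W)) (b := v + 8 * (LN * W))
    (a' := x - 128 * (LN * W)) (b' := x + 256 * (LN * W)) hu hv
  set X := A f (8 * (LN * W)) (u - 8 * (LN * W)) (v + 8 * (LN * W)) with hXdef
  set Y := A f (8 * (LN * W)) (x - 128 * (LN * W)) (x + 256 * (LN * W)) with hYdef
  have hX0 : 0 ≤ X := A_nonneg _ _ _ _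
  have hY0 : 0 ≤ Y := A_nonneg _ _ _ _
  have me2 : (LN : ℝ) ^ 3 * A f (8 * W) u v ≤ 276 * Y := by
    push_cast at me
    have h1 : (1 / 4 : ℝ) ^ 61 * (8 * (W : ℝ)) + 5 * z ≤ (1 / 4) ^ 61 * (8 * W + 5 / 8 * W) := by
      have : (5 : ℝ) * z ≤ (1 / 4) ^ 61 * (5 / 8 * W) := by
        have h9 : (5 : ℝ) * z = (1 / 4) ^ 61 * (5 / 8 * (2 ^ 125 * z)) := by
          have : (1 / 4 : ℝ) ^ 61 * (5 / 8 * 2 ^ 125) = 5 := by norm_num
          calc (5 : ℝ) * z = ((1 / 4 : ℝ) ^ 61 * (5 / 8 * 2 ^ 125)) * z := by rw [this]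
            _ = _ := by ring
        rw [h9]
        exact mul_le_mul_of_nonneg_left (by linarith) (by positivity)
      linarith
    have h2 := me.trans (mul_le_mul_of_nonneg_right h1 hX0)
    have h3 : (1 / 4 : ℝ) ^ 61 * (8 * W + 5 / 8 * W) * X ≤
        (1 / 4 : ℝ) ^ 61 * (8 * W + 5 / 8 * W) * Y :=
      mul_le_mul_of_nonneg_left hX (by positivity)
    have h4 : 2 * ((LN : ℝ) * W) * A f (8 * W) u v ≤
        (1 / 4 : ℝ) ^ 61 * (8 * W + 5 / 8 * W) * Y := h2.trans h3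
    have h5 : (2 * (W : ℝ)) * ((LN : ℝ) ^ 3 * A f (8 * W) u v) ≤ (2 * W) * (276 * Y) := by
      have h6 : (LN : ℝ) ^ 2 * (2 * ((LN : ℝ) * W) * A f (8 * W) u v) ≤
          (LN : ℝ) ^ 2 * ((1 / 4 : ℝ) ^ 61 * (8 * W + 5 / 8 * W) * Y) :=
        mul_le_mul_of_nonneg_left h4 (by positivity)
      have h7 : (LN : ℝ) ^ 2 * ((1 / 4 : ℝ) ^ 61 * (8 * W + 5 / 8 * W) * Y) =
          ((2 : ℝ) ^ 64) ^ 2 * (1 / 4 : ℝ) ^ 61 * ((8 + 5 / 8) * W * Y) := by
        rw [hLr]; ring
      have h8 : ((2 : ℝ) ^ 64) ^ 2 * (1 / 4 : ℝ) ^ 61 = 64 := by norm_num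
      rw [h7, h8] at h6
      linarith
    exact le_of_mul_le_mul_left h5 (by positivity)
  -- windows
  have w3 := windows3 f (8 * W) x (128 * W) u v J (by linarith) (by
    intro j hj
    have := hJ j hj
    exact ⟨by linarith, by linarith⟩)
  have e3 : 2 * (128 * W) = 256 * W := by ring
  rw [e3] at w3
  -- each nice child has mass at least 1
  have hbig : ∀ j ∈ J, 1024 * (W : ℝ) ^ 2 ≤ A f (8 * W) (x + j * (128 * W) - 128 * W)
      (x + j * (128 * W) + 256 * W) := by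
    intro j hj
    have hj2 := hJ j hj
    have ag := A_ge f (8 * W) (x + j * (128 * W) - 128 * W) (x + j * (128 * W) + 256 * W) z Bc
      (by linarith) hBc (by
        intro m κ h1 h2 h3 h4 h5
        rcases hyp m κ (by linarith) (by linarith) (by linarith) (by linarith) with h | h
        · exact h
        · exact absurd h.1 h5)
    refine le_trans ?_ ag
    push_cast
    have h1 : x + j * (128 * (W : ℝ)) + 256 * W - (x + j * (128 * W) - 128 * W) - z =
        384 * W - z := by ring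
    rw [h1]
    nlinarith
  have hDD : ∀ j ∈ J, DD f W (x + j * (128 * W)) ≤ 2 * (A f (8 * W)
      (x + j * (128 * W) - 128 * W) (x + j * (128 * W) + 256 * W) / (1024 * (W : ℝ) ^ 2)) := by
    intro j hj
    unfold DD
    have : 1 ≤ A f (8 * W) (x + j * (128 * W) - 128 * W) (x + j * (128 * W) + 256 * W) /
        (1024 * (W : ℝ) ^ 2) := by
      rw [le_div_iff₀ (by positivity)]
      linarith [hbig j hj]
    linarith
  have hsum := Finset.sum_le_sum hDD
  rw [← Finset.mul_sum, ← Finset.sum_div] at hsum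
  have hLp : (0 : ℝ) < LN := by rw [hLr]; positivity
  have h1 : (∑ j ∈ J, A f (8 * W) (x + j * (128 * W) - 128 * W)
      (x + j * (128 * W) + 256 * W)) / (1024 * (W : ℝ) ^ 2) ≤
      3 * A f (8 * W) u v / (1024 * (W : ℝ) ^ 2) := div_le_div_of_nonneg_right w3 (by positivity)
  have h2 : (LN : ℝ) * ∑ j ∈ J, DD f W (x + j * (128 * W)) ≤
      6 * ((LN : ℝ) ^ 3 * A f (8 * W) u v) / (1024 * ((LN : ℝ) * W) ^ 2) := by
    have h3 : 6 * ((LN : ℝ) ^ 3 * A f (8 * W) u v) / (1024 * ((LN : ℝ) * W) ^ 2) =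
        LN * (2 * (3 * A f (8 * W) u v / (1024 * (W : ℝ) ^ 2))) := by
      field_simp
      ring
    rw [h3]
    exact mul_le_mul_of_nonneg_left (by linarith) hLp.le
  refine h2.trans ?_
  unfold DD
  rw [← hYdef]
  push_cast
  have h4 : 6 * ((LN : ℝ) ^ 3 * A f (8 * W) u v) / (1024 * ((LN : ℝ) * W) ^ 2) ≤
      6 * (276 * Y) / (1024 * ((LN : ℝ) * W) ^ 2) :=
    div_le_div_of_nonneg_right (by linarith) (by positivity)
  have h5 : 6 * (276 * Y) / (1024 * ((LN : ℝ) * W) ^ 2) =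
      1656 * (Y / (1024 * ((LN : ℝ) * W) ^ 2)) := by ring
  linarith

end

end Pool.Agent.MTL
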