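import Pool.Agent.MTL.Cell

/-!
# Cells with few zeros
-/

namespace Pool.Agent.MTL

open Finset

noncomputable section

lemma log_le_lin {y c : ℝ} (hy : 0 < y) (hc : 0 < c) :
    Real.log y ≤ y / c + Real.log c - 1 := by
  have h := Real.log_le_sub_one_of_pos (div_pos hy hc)
  rw [Real.log_div hy.ne' hc.ne'] at h
  linarith

lemma dd_cast (S : ℤ → ℤ) (m κ : ℤ) :
    dd (fun i => (S i : ℝ)) m κ = (ddZ S m κ : ℝ) := by
  unfold dd ddZ
  push_cast
  ring

/-- few children are near the sign change -/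
lemma bad_count (W x t z : ℤ) (hW : 1 ≤ W) (hz : z ≤ W) (T : Finset ℕ)
    (hT : ∀ j ∈ T, t < x + (j : ℤ) * (128 * W) + 256 * W + 8 * (LN * W) + z + 1 ∧
      x + (j : ℤ) * (128 * W) - 128 * W - 8 * (LN * W) < t + z + 1) :
    4 * T.card ≤ LN := by
  have hLi := LN_int
  have hLn := LN_eq
  by_cases hTe : T.Nonempty
  · obtain ⟨j0, hj0, hmin⟩ : ∃ j ∈ T, ∀ i ∈ T, j ≤ i :=
      ⟨T.min' hTe, T.min'_mem hTe, fun i hi => T.min'_le i hi⟩
    have hsub : T ⊆ Icc j0 (j0 + (2 ^ 61 + 3)) := by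
      intro j hj
      rw [mem_Icc]
      refine ⟨hmin j hj, ?_⟩
      by_contra hcon
      have h1 : j0 + (2 ^ 61 + 4) ≤ j := by omega
      have h2 : (j0 : ℤ) + (2 ^ 61 + 4) ≤ j := by exact_mod_cast h1
      have h3 : ((j0 : ℤ) + (2 ^ 61 + 4)) * (128 * W) ≤ j * (128 * W) :=
        mul_le_mul_of_nonneg_right h2 (by linarith)
      have h4 := (hT j hj).2
      have h5 := (hT j0 hj0).1
      have h6 : (2 : ℤ) ^ 64 * W = LN * W := by rw [hLi]
      have h7 : ((j0 : ℤ) + (2 ^ 61 + 4)) * (128 * W) = j0 * (128 * W) + 16 * (2 ^ 64 * W) +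
          512 * W := by ring
      rw [h7, h6] at h3
      linarith
    have h1 := card_le_card hsub
    rw [Nat.card_Icc] at h1
    rw [hLn]
    have h2 : j0 + (2 ^ 61 + 3) + 1 - j0 = 2 ^ 61 + 4 := by omega
    rw [h2] at h1
    norm_num at h1 ⊢
    omega
  · rw [Finset.not_nonempty_iff_eq_empty] at hTe
    rw [hTe]
    simp

/-- a cell with few zeros -/
lemma cheap_cell {S : ℤ → ℤ} (hS : Steps S) (W x : ℤ) (z : ℕ) (Z : Finset (ℤ × ℤ))
    (hW : 1 ≤ W) (hz : 2 ^ 125 * (z : ℤ) ≤ W)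
    (hZ : ∀ m κ, x - 128 * (LN * W) ≤ m → m < x + 256 * (LN * W) → 4 * W ≤ κ →
      κ ≤ 512 * (LN * W) → ddZ S m κ = 0 → (m, κ) ∈ Z) (hZc : Z.card ≤ z) :
    ∑ j ∈ range LN, Real.log (DD (fun i => (S i : ℝ)) W (x + (j : ℤ) * (128 * W))) ≤
      LN * (Real.log (DD (fun i => (S i : ℝ)) (LN * W) x) - 64 * Real.log 2 - 1) := by
  classical
  have hLi := LN_int
  have hLr := LN_real
  have hW0 : (0 : ℤ) < W := by linarith
  have hLW : (2 : ℤ) ^ 64 * W = LN * W := by rw [hLi]
  have hz0 : (0 : ℤ) ≤ z := Int.natCast_nonneg z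
  have hz1 : (z : ℤ) + 1 ≤ 2 * W := by linarith
  have hz2 : (z : ℤ) ≤ W := by linarith
  obtain ⟨t, s1, s2, Bc, Ba, ht1, ht2, hs1, hs2, hBc, hBa, hmain⟩ :=
    sign_structure hS (x - 128 * (LN * W)) (x + 256 * (LN * W)) (4 * W) (512 * (LN * W)) z Z
      hZ hZc (by linarith) (by linarith)
  set f : ℤ → ℝ := fun i => (S i : ℝ) with hf
  set D := DD f (LN * W) x with hD
  have hD1 : 1 ≤ D := one_le_DD _ _ _
  set JL := (range LN).filter (fun j : ℕ =>
    x + (j : ℤ) * (128 * W) + 256 * W + 8 * (LN * W) + z + 1 ≤ t) with hJL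
  set JR := (range LN).filter (fun j : ℕ =>
    ¬ (x + (j : ℤ) * (128 * W) + 256 * W + 8 * (LN * W) + z + 1 ≤ t) ∧
    t + z + 1 ≤ x + (j : ℤ) * (128 * W) - 128 * W - 8 * (LN * W)) with hJR
  set JB := (range LN).filter (fun j : ℕ =>
    ¬ (x + (j : ℤ) * (128 * W) + 256 * W + 8 * (LN * W) + z + 1 ≤ t) ∧
    ¬ (t + z + 1 ≤ x + (j : ℤ) * (128 * W) - 128 * W - 8 * (LN * W))) with hJB
  -- from a signed statement to the side lemma
  have hside : ∀ (s u v : ℤ) (J : Finset ℕ), (s = 1 ∨ s = -1) →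
      (∀ m κ, u - 8 * (LN * W) ≤ m → m < v + 8 * (LN * W) → 6 * W ≤ κ →
        κ ≤ 4 * (LN * W) → (1 ≤ s * ddZ S m κ ∨ (m ∈ Bc ∧ m + κ ∈ Ba))) →
      (∀ j ∈ J, u ≤ x + (j : ℤ) * (128 * W) - 128 * W ∧
        x + (j : ℤ) * (128 * W) + 256 * W ≤ v) →
      (x - 128 * (LN * W) ≤ u - 8 * (LN * W)) → (v + 8 * (LN * W) ≤ x + 256 * (LN * W)) →
      (LN : ℝ) * ∑ j ∈ J, DD f W (x + (j : ℤ) * (128 * W)) ≤ 1656 * D := by
    intro s u v J hs h1 h2 h3 h4
    rcases hs with rfl | rfl
    · refine side f W x u v z Bc Ba J hW hz hBc hBa ?_ h2 h3 h4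
      intro m κ a1 a2 a3 a4
      rcases h1 m κ a1 a2 a3 a4 with h | h
      · left
        rw [hf, dd_cast]
        have : (1 : ℤ) ≤ ddZ S m κ := by linarith
        exact_mod_cast this
      · exact Or.inr h
    · have h5 := side (fun i => - f i) W x u v z Bc Ba J hW hz hBc hBa (by
        intro m κ a1 a2 a3 a4
        rcases h1 m κ a1 a2 a3 a4 with h | h
        · left
          rw [dd_neg, hf, dd_cast]
          have : (1 : ℤ) ≤ - ddZ S m κ := by linarith
          exact_mod_cast this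
        · exact Or.inr h) h2 h3 h4
      simp only [DD_neg] at h5
      exact h5
  have hjr : ∀ j ∈ range LN, ((j : ℤ) + 1) * (128 * W) ≤ LN * (128 * W) := by
    intro j hj
    have : (j : ℤ) + 1 ≤ LN := by exact_mod_cast mem_range.mp hj
    exact mul_le_mul_of_nonneg_right this (by linarith)
  have sL : (LN : ℝ) * ∑ j ∈ JL, DD f W (x + (j : ℤ) * (128 * W)) ≤ 1656 * D := by
    refine hside s1 (x - 128 * W) (t - z - 1 - 8 * (LN * W)) JL hs1 ?_ ?_ (by linarith)
      (by linarith)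
    · intro m κ a1 a2 a3 a4
      exact (hmain m κ (by linarith) (by linarith)).1 (by linarith) (by linarith)
    · intro j hj
      rw [hJL, mem_filter] at hj
      have : (0 : ℤ) ≤ j * (128 * W) := by positivity
      exact ⟨by linarith, by linarith [hj.2]⟩
  have sR : (LN : ℝ) * ∑ j ∈ JR, DD f W (x + (j : ℤ) * (128 * W)) ≤ 1656 * D := by
    refine hside s2 (t + z + 1 + 8 * (LN * W)) (x + 128 * (LN * W) + 128 * W) JR hs2 ?_ ?_
      (by linarith) (by linarith)
    · intro m κ a1 a2 a3 a4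
      exact (hmain m κ (by linarith) (by linarith)).2 (by linarith) (by linarith)
    · intro j hj
      rw [hJR, mem_filter] at hj
      have := hjr j hj.1
      exact ⟨by linarith [hj.2.2], by linarith⟩
  have hB : 4 * JB.card ≤ LN := by
    refine bad_count W x t z hW hz2 JB ?_
    intro j hj
    rw [hJB, mem_filter] at hj
    obtain ⟨_, h1, h2⟩ := hj
    constructor
    · linarith [not_le.mp h1]
    · linarith [not_le.mp h2]
  -- the logarithms
  have hLp : (0 : ℝ) < LN := by rw [hLr]; positivity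
  set c : ℝ := 4096 * D / (LN : ℝ) ^ 2 with hc
  have hcp : 0 < c := by positivity
  have hlogL : Real.log (LN : ℝ) = 64 * Real.log 2 := by
    rw [hLr, Real.log_pow]; norm_num
  have hlogc : Real.log c = Real.log D - 116 * Real.log 2 := by
    rw [hc, Real.log_div (by positivity) (by positivity), Real.log_mul (by norm_num)
      (by positivity), Real.log_pow, hlogL]
    have : Real.log 4096 = 12 * Real.log 2 := by
      rw [show (4096 : ℝ) = 2 ^ 12 by norm_num, Real.log_pow]; norm_num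
    rw [this]; push_cast; ring
  have hnice : ∀ J : Finset ℕ, ∑ j ∈ J, Real.log (DD f W (x + (j : ℤ) * (128 * W))) ≤
      (∑ j ∈ J, DD f W (x + (j : ℤ) * (128 * W))) / c + J.card * (Real.log c - 1) := by
    intro J
    have : ∀ j ∈ J, Real.log (DD f W (x + (j : ℤ) * (128 * W))) ≤
        DD f W (x + (j : ℤ) * (128 * W)) / c + (Real.log c - 1) := by
      intro j _
      have h1 : 0 < DD f W (x + (j : ℤ) * (128 * W)) :=
        lt_of_lt_of_le one_pos (one_le_DD _ _ _)
      have := log_le_lin h1 hcp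
      linarith
    refine (Finset.sum_le_sum this).trans ?_
    rw [Finset.sum_add_distrib, Finset.sum_const, nsmul_eq_mul, Finset.sum_div]
  have hdiv : ∀ Y : ℝ, (LN : ℝ) * Y ≤ 1656 * D → Y / c ≤ LN / 2 := by
    intro Y hY
    rw [div_le_iff₀ hcp, hc]
    have : (LN : ℝ) / 2 * (4096 * D / (LN : ℝ) ^ 2) = 2048 * D / LN := by
      field_simp; ring
    rw [this, le_div_iff₀ hLp]
    have : 0 ≤ D := by linarith
    linarith
  have nL := hnice JL
  have nR := hnice JR
  have dL := hdiv _ sL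
  have dR := hdiv _ sR
  have nB : ∑ j ∈ JB, Real.log (DD f W (x + (j : ℤ) * (128 * W))) ≤
      JB.card * (Real.log D + 66 * Real.log 2) := by
    have : ∀ j ∈ JB, Real.log (DD f W (x + (j : ℤ) * (128 * W))) ≤
        Real.log D + 66 * Real.log 2 := by
      intro j hj
      have hjr : j < LN := mem_range.mp (mem_filter.mp hj).1
      have h1 := child_any f W x hW j hjr
      have h2 : 0 < DD f W (x + (j : ℤ) * (128 * W)) :=
        lt_of_lt_of_le one_pos (one_le_DD _ _ _)
      have h3 := Real.log_le_log h2 h1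
      rw [Real.log_mul (by positivity) (by positivity), Real.log_mul (by norm_num) hLp.ne',
        hlogL] at h3
      have : Real.log 4 = 2 * Real.log 2 := by
        rw [show (4 : ℝ) = 2 ^ 2 by norm_num, Real.log_pow]; norm_num
      rw [this] at h3
      linarith
    refine (Finset.sum_le_sum this).trans ?_
    rw [Finset.sum_const, nsmul_eq_mul]
  -- splitting
  have hsplit : ∀ g : ℕ → ℝ, ∑ j ∈ range LN, g j = ∑ j ∈ JL, g j + (∑ j ∈ JR, g j +
      ∑ j ∈ JB, g j) := by
    intro g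
    rw [← Finset.sum_filter_add_sum_filter_not (range LN) (fun j : ℕ =>
      x + (j : ℤ) * (128 * W) + 256 * W + 8 * (LN * W) + z + 1 ≤ t) g,
      ← Finset.sum_filter_add_sum_filter_not ((range LN).filter (fun j : ℕ =>
      ¬ (x + (j : ℤ) * (128 * W) + 256 * W + 8 * (LN * W) + z + 1 ≤ t))) (fun j : ℕ =>
      t + z + 1 ≤ x + (j : ℤ) * (128 * W) - 128 * W - 8 * (LN * W)) g]
    rw [Finset.filter_filter, Finset.filter_filter]
  have hcount : (LN : ℝ) = JL.card + (JR.card + JB.card) := by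
    have := hsplit (fun _ => 1)
    simpa using this
  rw [hsplit]
  have hB' : 4 * (JB.card : ℝ) ≤ LN := by exact_mod_cast hB
  have hl2 : (0.6931471803 : ℝ) < Real.log 2 := Real.log_two_gt_d9
  have hl2' : Real.log 2 < 0.6931471808 := Real.log_two_lt_d9
  rw [hlogc] at nL nR
  have hBn : (0 : ℝ) ≤ JB.card := Nat.cast_nonneg _
  have key : (JL.card : ℝ) + JR.card = LN - JB.card := by linarith
  have hfin : ((JL.card : ℝ) + JR.card) * (Real.log D - 116 * Real.log 2 - 1) +
      JB.card * (Real.log D + 66 * Real.log 2) =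
      LN * (Real.log D - 116 * Real.log 2 - 1) + JB.card * (182 * Real.log 2 + 1) := by
    rw [key]; ring
  have hfin2 : (JB.card : ℝ) * (182 * Real.log 2 + 1) ≤ LN / 4 * (182 * Real.log 2 + 1) :=
    mul_le_mul_of_nonneg_right (by linarith) (by linarith)
  have hfin3 : (LN : ℝ) * (6.5 * Real.log 2 - 5 / 4) ≥ 0 :=
    mul_nonneg hLp.le (by linarith)
  nlinarith

end

end Pool.Agent.MTL
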