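import Mathlib

/-!
# Abelian squares in binary words: definitions

A binary word is a `List Bool`; positions are numbered from `1`.
-/

namespace Pool.Agent.MTL

/-- an abelian square: `x = u v` with `u` not empty and `u`, `v` having the same Parikh vector,
that is, the same number of occurrences of each of the two letters -/
def IsAbelianSquare (x : List Bool) : Prop :=
  ∃ u v : List Bool, u ≠ [] ∧ x = u ++ v ∧ ∀ c : Bool, u.count c = v.count c

/-- the factor `w[i..j]` of the word `w` -/
def factor (w : List Bool) (i j : ℕ) : List Bool := (w.drop (i - 1)).take (j + 1 - i)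

/-- the number of occurrences of abelian squares in `w`, that is, of pairs `(i, j)` with
`1 ≤ i < j ≤ |w|` such that `w[i..j]` is an abelian square -/
noncomputable def occ (w : List Bool) : ℕ :=
  Set.ncard {p : ℕ × ℕ | 1 ≤ p.1 ∧ p.1 < p.2 ∧ p.2 ≤ w.length ∧
    IsAbelianSquare (factor w p.1 p.2)}

/-- the least number of occurrences of abelian squares in a binary word of length `n` -/
noncomputable def MTL (n : ℕ) : ℕ := sInf {N : ℕ | ∃ w : List Bool, w.length = n ∧ occ w = N}

end Pool.Agent.MTL
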