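import Mathlib

/-!
# Second differences on the integers: the `L¹` inequalities

For `f : ℤ → ℝ` we use the second differences `dd f m k = f (m + k) + f (m - k) - 2 f m`.
-/

namespace Pool.Agent.MTL

open Finset

noncomputable section

/-- second difference of `f` at centre `m` with step `k` -/
def dd (f : ℤ → ℝ) (m k : ℤ) : ℝ := f (m + k) + f (m - k) - 2 * f m

lemma dd_zero (f : ℤ → ℝ) (m : ℤ) : dd f m 0 = 0 := by simp [dd]; ring

lemma dd_neg (f : ℤ → ℝ) (m k : ℤ) : dd (fun i => - f i) m k = - dd f m k := by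
  simp only [dd]; ring

lemma dd_two (f : ℤ → ℝ) (m k : ℤ) :
    dd f m (2 * k) = dd f (m - k) k + 2 * dd f m k + dd f (m + k) k := by
  simp only [dd]
  have e1 : m - k + k = m := by ring
  have e2 : m - k - k = m - 2 * k := by ring
  have e3 : m + k + k = m + 2 * k := by ring
  have e4 : m + k - k = m := by ring
  rw [e1, e2, e3, e4]; ring

/-- (E1): small steps from large steps -/
lemma dd_small (f : ℤ → ℝ) (m j k : ℤ) :
    2 * dd f m j = dd f m (k + j) + dd f m (k - j) - dd f (m + j) k - dd f (m - j) k := by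
  simp only [dd]
  have e1 : m - (k + j) = m - j - k := by ring
  have e2 : m + (k - j) = m - j + k := by ring
  have e3 : m - (k - j) = m + j - k := by ring
  have e4 : m + (k + j) = m + j + k := by ring
  rw [e1, e2, e3, e4]; ring

/-- (E2) -/
lemma dd_large (f : ℤ → ℝ) (m k r : ℤ) :
    2 * dd f m k = dd f m (k + r) + dd f m (k - r) - dd f (m + k) r - dd f (m - k) r := by
  simp only [dd]
  have e1 : m - (k + r) = m - k - r := by ring
  have e2 : m + (k - r) = m + k - r := by ring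
  have e3 : m - (k - r) = m - k + r := by ring
  have e4 : m + (k + r) = m + k + r := by ring
  rw [e1, e2, e3, e4]; ring

lemma sum_shift (g : ℤ → ℝ) (a b c : ℤ) :
    ∑ m ∈ Ico a b, g (m + c) = ∑ m ∈ Ico (a + c) (b + c), g m :=
  Finset.sum_Ico_add' g a b c

lemma sum_shift' (g : ℤ → ℝ) (a b c : ℤ) :
    ∑ m ∈ Ico a b, g (m - c) = ∑ m ∈ Ico (a - c) (b - c), g m := by
  have := sum_shift g a b (-c)
  simpa [sub_eq_add_neg] using this

lemma sum_mono_win {g : ℤ → ℝ} (hg : ∀ m, 0 ≤ g m) {a b a' b' : ℤ} (ha : a' ≤ a) (hb : b ≤ b') :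
    ∑ m ∈ Ico a b, g m ≤ ∑ m ∈ Ico a' b', g m :=
  Finset.sum_le_sum_of_subset_of_nonneg (Finset.Ico_subset_Ico ha hb) (fun _ _ _ => hg _)

/-- column sum over the rows `[h, 2h)` -/
def al (f : ℤ → ℝ) (h m : ℤ) : ℝ := ∑ k ∈ Ico h (2 * h), |dd f m k|

lemma al_nonneg (f : ℤ → ℝ) (h m : ℤ) : 0 ≤ al f h m := Finset.sum_nonneg fun _ _ => abs_nonneg _

/-- row sum over the centres `[a, b)` -/
def N (f : ℤ → ℝ) (k a b : ℤ) : ℝ := ∑ m ∈ Ico a b, |dd f m k|

/-- sum over the rows `[h, 2h)` and the centres `[a, b)` -/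
def A (f : ℤ → ℝ) (h a b : ℤ) : ℝ := ∑ m ∈ Ico a b, al f h m

lemma A_eq (f : ℤ → ℝ) (h a b : ℤ) : A f h a b = ∑ k ∈ Ico h (2 * h), N f k a b := by
  unfold A al N
  rw [Finset.sum_comm]

lemma A_nonneg (f : ℤ → ℝ) (h a b : ℤ) : 0 ≤ A f h a b := Finset.sum_nonneg fun _ _ => al_nonneg _ _ _

lemma N_nonneg (f : ℤ → ℝ) (h a b : ℤ) : 0 ≤ N f h a b := Finset.sum_nonneg fun _ _ => abs_nonneg _

lemma A_mono (f : ℤ → ℝ) (h : ℤ) {a b a' b' : ℤ} (ha : a' ≤ a) (hb : b ≤ b') :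
    A f h a b ≤ A f h a' b' := sum_mono_win (fun _ => al_nonneg _ _ _) ha hb

lemma N_mono (f : ℤ → ℝ) (k : ℤ) {a b a' b' : ℤ} (ha : a' ≤ a) (hb : b ≤ b') :
    N f k a b ≤ N f k a' b' := sum_mono_win (fun _ => abs_nonneg _) ha hb

/-- a row with a small step, one centre -/
lemma abs_dd_le (f : ℤ → ℝ) (m h j : ℤ) (hj : 0 ≤ j) (hjh : j ≤ h) :
    4 * (h : ℝ) * |dd f m j| ≤ 2 * al f (4 * h) m + al f (4 * h) (m + j) + al f (4 * h) (m - j) := by
  have h0 : (0 : ℤ) ≤ h := le_trans hj hjh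
  have key : ∀ k ∈ Ico (5 * h) (7 * h), 2 * |dd f m j| ≤
      |dd f m (k + j)| + |dd f m (k - j)| + |dd f (m + j) k| + |dd f (m - j) k| := by
    intro k _
    have e := dd_small f m j k
    have : |2 * dd f m j| ≤
        |dd f m (k + j)| + |dd f m (k - j)| + |dd f (m + j) k| + |dd f (m - j) k| := by
      rw [e]
      have t1 := abs_sub (dd f m (k + j) + dd f m (k - j) - dd f (m + j) k) (dd f (m - j) k)
      have t2 := abs_sub (dd f m (k + j) + dd f m (k - j)) (dd f (m + j) k)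
      have t3 := abs_add_le (dd f m (k + j)) (dd f m (k - j))
      linarith
    rwa [abs_mul, abs_of_pos (by norm_num : (0 : ℝ) < 2)] at this
  have hs := Finset.sum_le_sum key
  rw [Finset.sum_const, Int.card_Ico, nsmul_eq_mul] at hs
  simp only [Finset.sum_add_distrib] at hs
  have hc : (((7 * h - 5 * h).toNat : ℕ) : ℝ) = 2 * (h : ℝ) := by
    have : ((7 * h - 5 * h).toNat : ℤ) = 2 * h := by
      rw [Int.toNat_of_nonneg (by linarith)]; ring
    exact_mod_cast this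
  rw [hc] at hs
  have s1 : ∑ k ∈ Ico (5 * h) (7 * h), |dd f m (k + j)| ≤ al f (4 * h) m := by
    rw [sum_shift (fun k => |dd f m k|)]
    exact sum_mono_win (fun _ => abs_nonneg _) (by linarith) (by linarith)
  have s2 : ∑ k ∈ Ico (5 * h) (7 * h), |dd f m (k - j)| ≤ al f (4 * h) m := by
    rw [sum_shift' (fun k => |dd f m k|)]
    exact sum_mono_win (fun _ => abs_nonneg _) (by linarith) (by linarith)
  have s3 : ∀ y : ℤ, ∑ k ∈ Ico (5 * h) (7 * h), |dd f y k| ≤ al f (4 * h) y := fun y =>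
    sum_mono_win (fun _ => abs_nonneg _) (by linarith) (by linarith)
  have s4 := s3 (m + j)
  have s5 := s3 (m - j)
  linarith

/-- a row with a small step on a window -/
lemma N_le (f : ℤ → ℝ) (h j a b : ℤ) (hj : 0 ≤ j) (hjh : j ≤ h) :
    (h : ℝ) * N f j a b ≤ A f (4 * h) (a - j) (b + j) := by
  have hs := Finset.sum_le_sum (fun m (_ : m ∈ Ico a b) => abs_dd_le f m h j hj hjh)
  simp only [Finset.sum_add_distrib, ← Finset.mul_sum] at hs
  rw [sum_shift (fun m => al f (4 * h) m), sum_shift' (fun m => al f (4 * h) m)] at hs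
  have m1 := A_mono f (4 * h) (a := a) (b := b) (a' := a - j) (b' := b + j) (by linarith)
    (by linarith)
  have m2 := A_mono f (4 * h) (a := a + j) (b := b + j) (a' := a - j) (b' := b + j) (by linarith)
    (by linarith)
  have m3 := A_mono f (4 * h) (a := a - j) (b := b - j) (a' := a - j) (b' := b + j) (by linarith)
    (by linarith)
  unfold A at m1 m2 m3 ⊢
  unfold N
  linarith

/-- all rows `[h₀, 2h₀)` from the rows `[4h, 8h)` -/
lemma A_le (f : ℤ → ℝ) (h h0 a b : ℤ) (h0p : 0 ≤ h0) (hjh : 2 * h0 ≤ h) :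
    (h : ℝ) * A f h0 a b ≤ (h0 : ℝ) * A f (4 * h) (a - 2 * h0) (b + 2 * h0) := by
  rw [A_eq, Finset.mul_sum]
  have : ∀ j ∈ Ico h0 (2 * h0), (h : ℝ) * N f j a b ≤ A f (4 * h) (a - 2 * h0) (b + 2 * h0) := by
    intro j hj
    rw [Finset.mem_Ico] at hj
    exact (N_le f h j a b (by linarith) (by linarith)).trans
      (A_mono _ _ (by linarith) (by linarith))
  refine (Finset.sum_le_sum this).trans ?_
  rw [Finset.sum_const, Int.card_Ico, nsmul_eq_mul]
  have hc : (((2 * h0 - h0).toNat : ℕ) : ℝ) = (h0 : ℝ) := by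
    have : ((2 * h0 - h0).toNat : ℤ) = h0 := by
      rw [Int.toNat_of_nonneg (by linarith)]; ring
    exact_mod_cast this
  rw [hc]

/-- positive part of a row -/
def P (f : ℤ → ℝ) (k a b : ℤ) : ℝ := ∑ m ∈ Ico a b, max (dd f m k) 0

/-- negative part of a row -/
def M (f : ℤ → ℝ) (k a b : ℤ) : ℝ := ∑ m ∈ Ico a b, max (-dd f m k) 0

lemma P_nonneg (f : ℤ → ℝ) (k a b : ℤ) : 0 ≤ P f k a b := Finset.sum_nonneg fun _ _ => le_max_right _ _

lemma M_nonneg (f : ℤ → ℝ) (k a b : ℤ) : 0 ≤ M f k a b := Finset.sum_nonneg fun _ _ => le_max_right _ _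

lemma P_mono (f : ℤ → ℝ) (k : ℤ) {a b a' b' : ℤ} (ha : a' ≤ a) (hb : b ≤ b') :
    P f k a b ≤ P f k a' b' := sum_mono_win (fun _ => le_max_right _ _) ha hb

lemma M_mono (f : ℤ → ℝ) (k : ℤ) {a b a' b' : ℤ} (ha : a' ≤ a) (hb : b ≤ b') :
    M f k a b ≤ M f k a' b' := sum_mono_win (fun _ => le_max_right _ _) ha hb

lemma P_add_M (f : ℤ → ℝ) (k a b : ℤ) : P f k a b + M f k a b = N f k a b := by
  unfold P M N
  rw [← Finset.sum_add_distrib]
  refine Finset.sum_congr rfl fun m _ => ?_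
  rcases le_total 0 (dd f m k) with h | h
  · rw [max_eq_left h, max_eq_right (by linarith), abs_of_nonneg h]; ring
  · rw [max_eq_right h, max_eq_left (by linarith), abs_of_nonpos h]; ring

lemma sum_dd (f : ℤ → ℝ) (k a b : ℤ) : ∑ m ∈ Ico a b, dd f m k = P f k a b - M f k a b := by
  unfold P M
  rw [← Finset.sum_sub_distrib]
  refine Finset.sum_congr rfl fun m _ => ?_
  rcases le_total 0 (dd f m k) with h | h
  · rw [max_eq_left h, max_eq_right (by linarith)]; ring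
  · rw [max_eq_right h, max_eq_left (by linarith)]; ring

lemma P_le_N (f : ℤ → ℝ) (k a b : ℤ) : P f k a b ≤ N f k a b := by
  have := P_add_M f k a b
  have := M_nonneg f k a b
  linarith

/-- doubling the step -/
lemma dbl (f : ℤ → ℝ) (k a b : ℤ) (hk : 0 ≤ k) :
    4 * P f k a b ≤ P f (2 * k) (a - k) (b + k) + 4 * M f k (a - 2 * k) (b + 2 * k) := by
  have e : ∑ m ∈ Ico (a - k) (b + k), dd f m (2 * k) =
      ∑ m ∈ Ico (a - k - k) (b + k - k), dd f m k + 2 * ∑ m ∈ Ico (a - k) (b + k), dd f m k +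
      ∑ m ∈ Ico (a - k + k) (b + k + k), dd f m k := by
    rw [← sum_shift (fun m => dd f m k), ← sum_shift' (fun m => dd f m k), Finset.mul_sum,
      ← Finset.sum_add_distrib, ← Finset.sum_add_distrib]
    exact Finset.sum_congr rfl fun m _ => dd_two f m k
  have low : ∀ c d : ℤ, c ≤ a → b ≤ d → a - 2 * k ≤ c → d ≤ b + 2 * k →
      P f k a b - M f k (a - 2 * k) (b + 2 * k) ≤ ∑ m ∈ Ico c d, dd f m k := by
    intro c d h1 h2 h3 h4
    rw [sum_dd]
    have := P_mono f k h1 h2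
    have := M_mono f k h3 h4
    linarith
  have l1 := low (a - k - k) (b + k - k) (by linarith) (by linarith) (by linarith) (by linarith)
  have l2 := low (a - k) (b + k) (by linarith) (by linarith) (by linarith) (by linarith)
  have l3 := low (a - k + k) (b + k + k) (by linarith) (by linarith) (by linarith) (by linarith)
  have l4 := sum_dd f (2 * k) (a - k) (b + k)
  have l5 := M_nonneg f (2 * k) (a - k) (b + k)
  linarith

/-- iterated doubling -/
lemma iter (f : ℤ → ℝ) (k a b : ℤ) (hk : 0 ≤ k) (g : ℕ) :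
    P f k a b ≤ (1 / 4 : ℝ) ^ g * P f (2 ^ g * k) (a - (2 ^ g - 1) * k) (b + (2 ^ g - 1) * k) +
      ∑ i ∈ range g, (1 / 4 : ℝ) ^ i * M f (2 ^ i * k) (a - 3 * (2 ^ i * k))
        (b + 3 * (2 ^ i * k)) := by
  induction g with
  | zero => simp
  | succ g ih =>
    have h2 : (0 : ℤ) ≤ 2 ^ g * k := by positivity
    have d := dbl f (2 ^ g * k) (a - (2 ^ g - 1) * k) (b + (2 ^ g - 1) * k) h2
    have e1 : (2 : ℤ) * (2 ^ g * k) = 2 ^ (g + 1) * k := by ring
    have e2 : a - (2 ^ g - 1) * k - 2 ^ g * k = a - (2 ^ (g + 1) - 1) * k := by ring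
    have e3 : b + (2 ^ g - 1) * k + 2 ^ g * k = b + (2 ^ (g + 1) - 1) * k := by ring
    rw [e1, e2, e3] at d
    have mm : M f (2 ^ g * k) (a - (2 ^ g - 1) * k - 2 ^ (g + 1) * k)
        (b + (2 ^ g - 1) * k + 2 ^ (g + 1) * k) ≤
        M f (2 ^ g * k) (a - 3 * (2 ^ g * k)) (b + 3 * (2 ^ g * k)) := by
      have e4 : (2 : ℤ) ^ (g + 1) * k = 2 * (2 ^ g * k) := by ring
      apply M_mono
      · rw [e4]; linarith
      · rw [e4]; linarith
    rw [Finset.sum_range_succ]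
    have hp : (0 : ℝ) ≤ (1 / 4 : ℝ) ^ g := by positivity
    have d' : P f (2 ^ g * k) (a - (2 ^ g - 1) * k) (b + (2 ^ g - 1) * k) ≤
        1 / 4 * P f (2 ^ (g + 1) * k) (a - (2 ^ (g + 1) - 1) * k) (b + (2 ^ (g + 1) - 1) * k) +
        M f (2 ^ g * k) (a - 3 * (2 ^ g * k)) (b + 3 * (2 ^ g * k)) := by linarith
    have := mul_le_mul_of_nonneg_left d' hp
    have e5 : (1 / 4 : ℝ) ^ (g + 1) = (1 / 4 : ℝ) ^ g * (1 / 4) := by ring
    rw [e5]
    linarith

end

end Pool.Agent.MTL
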