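import Pool.Agent.MTL.Pot

/-!
# The lower bound `c n log n`
-/

namespace Pool.Agent.MTL

open Finset

/-- the zeros of the second differences inside `[0,n]`: pairs (centre, half length) -/
noncomputable def ZZ (S : ℤ → ℤ) (n : ℕ) : Finset (ℤ × ℤ) :=
  ((Icc (0 : ℤ) n) ×ˢ (Icc (1 : ℤ) n)).filter
    (fun p => p.2 ≤ p.1 ∧ p.1 + p.2 ≤ n ∧ ddZ S p.1 p.2 = 0)

lemma mem_ZZ (S : ℤ → ℤ) (n : ℕ) (m k : ℤ) :
    (m, k) ∈ ZZ S n ↔ 1 ≤ k ∧ k ≤ m ∧ m + k ≤ n ∧ ddZ S m k = 0 := by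
  unfold ZZ
  rw [mem_filter, mem_product, mem_Icc, mem_Icc]
  constructor
  · rintro ⟨⟨_, h2⟩, h3, h4, h5⟩
    exact ⟨h2.1, h3, h4, h5⟩
  · rintro ⟨h1, h2, h3, h4⟩
    exact ⟨⟨⟨by simp only; omega, by simp only; omega⟩, ⟨h1, by simp only; omega⟩⟩, h2, h3, h4⟩

noncomputable section

lemma lower_core {S : ℤ → ℤ} (hS : Steps S) (n t : ℕ) (h : 1408 * LN ^ t ≤ n) :
    (LN : ℝ) ^ t * (t - 6 * Real.log 2) ≤ LN * 2 ^ 132 * (6 * (ZZ S n).card) := by
  have h' : 1408 * (LN : ℤ) ^ t ≤ n := by exact_mod_cast h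
  refine potential hS t (640 * (LN : ℤ) ^ t) (ZZ S n) ?_
  intro m κ h1 h2 h3 h4 h5
  rw [mem_ZZ]
  exact ⟨h3, by linarith, by linarith, h5⟩

lemma lower_one {S : ℤ → ℤ} (hS : Steps S) (n : ℕ) (hn : 4 ≤ n) : 1 ≤ (ZZ S n).card := by
  have s0 := hS 0
  have s1 := hS 1
  have s2 := hS 2
  have s3 := hS 3
  norm_num at s0 s1 s2 s3
  have d11 : ddZ S 1 1 = S 2 + S 0 - 2 * S 1 := by unfold ddZ; norm_num
  have d21 : ddZ S 2 1 = S 3 + S 1 - 2 * S 2 := by unfold ddZ; norm_num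
  have d31 : ddZ S 3 1 = S 4 + S 2 - 2 * S 3 := by unfold ddZ; norm_num
  have d22 : ddZ S 2 2 = S 4 + S 0 - 2 * S 2 := by unfold ddZ; norm_num
  have hn' : (4 : ℤ) ≤ n := by exact_mod_cast hn
  have : ∃ m k, (m, k) ∈ ZZ S n := by
    by_cases c1 : ddZ S 1 1 = 0
    · exact ⟨1, 1, (mem_ZZ _ _ _ _).mpr ⟨le_rfl, le_rfl, by omega, c1⟩⟩
    by_cases c2 : ddZ S 2 1 = 0
    · exact ⟨2, 1, (mem_ZZ _ _ _ _).mpr ⟨le_rfl, by omega, by omega, c2⟩⟩
    by_cases c3 : ddZ S 3 1 = 0
    · exact ⟨3, 1, (mem_ZZ _ _ _ _).mpr ⟨le_rfl, by omega, by omega, c3⟩⟩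
    refine ⟨2, 2, (mem_ZZ _ _ _ _).mpr ⟨by omega, by omega, by omega, ?_⟩⟩
    omega
  obtain ⟨m, k, h⟩ := this
  exact card_pos.mpr ⟨_, h⟩

/-- the lower bound -/
theorem lower : ∃ c : ℝ, 0 < c ∧ ∀ S : ℤ → ℤ, Steps S → ∀ n : ℕ, 4 ≤ n →
    c * n * Real.log n ≤ (ZZ S n).card := by
  have hLr := LN_real
  have hLp : (0 : ℝ) < LN := by rw [hLr]; positivity
  have hL1 : 1 < LN := by rw [LN_eq]; norm_num
  set N0 : ℕ := 1408 * LN ^ 13 with hN0
  have hN01 : 1408 ≤ N0 := by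
    have : 1 ≤ LN ^ 13 := Nat.one_le_pow _ _ (by omega)
    rw [hN0]
    omega
  have hN0r : (1408 : ℝ) ≤ N0 := by exact_mod_cast hN01
  have hlogN0 : 0 < Real.log N0 := Real.log_pos (by linarith)
  set B : ℝ := N0 * Real.log N0 with hB
  have hBp : 0 < B := mul_pos (by linarith) hlogN0
  set P : ℝ := 2 ^ 132 with hP
  have hPp : 0 < P := pow_pos (by norm_num) _
  set E : ℝ := 1408 * 128 * LN * (LN * P * 6) with hE
  have hEp : 0 < E := by positivity
  refine ⟨min (1 / B) (1 / E), lt_min (by positivity) (by positivity), ?_⟩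
  intro S hS n hn
  have hnr : (4 : ℝ) ≤ n := by exact_mod_cast hn
  have hlogn : 0 < Real.log n := Real.log_pos (by linarith)
  have hnl : 0 < n * Real.log n := mul_pos (by linarith) hlogn
  by_cases hsmall : n < N0
  · have h1 : n * Real.log n ≤ B := by
      have h2 : (n : ℝ) ≤ N0 := by exact_mod_cast hsmall.le
      exact mul_le_mul h2 (Real.log_le_log (by linarith) h2) hlogn.le (by linarith)
    have h3 : min (1 / B) (1 / E) * (n * Real.log n) ≤ 1 := by
      calc min (1 / B) (1 / E) * (n * Real.log n) ≤ 1 / B * (n * Real.log n) :=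
            mul_le_mul_of_nonneg_right (min_le_left _ _) hnl.le
        _ ≤ 1 / B * B := mul_le_mul_of_nonneg_left h1 (by positivity)
        _ = 1 := by field_simp
    have h4 : (1 : ℝ) ≤ (ZZ S n).card := by exact_mod_cast lower_one hS n hn
    linarith
  · have hbig : N0 ≤ n := not_lt.mp hsmall
    set t := Nat.log LN (n / 1408) with ht
    have hne : n / 1408 ≠ 0 := by omega
    have p1 : LN ^ t ≤ n / 1408 := Nat.pow_log_le_self LN hne
    have p2 : n / 1408 < LN ^ (t + 1) := Nat.lt_pow_succ_log_self hL1 _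
    have p3 : 1408 * LN ^ t ≤ n := by omega
    have p4 : n < 1408 * LN ^ (t + 1) := by omega
    have p5 : 13 ≤ t := by
      by_contra hcon
      have h1 : LN ^ (t + 1) ≤ LN ^ 13 := Nat.pow_le_pow_right (by omega) (by omega)
      omega
    have lc := lower_core hS n t p3
    have p5r : (13 : ℝ) ≤ t := by exact_mod_cast p5
    have p4r : (n : ℝ) ≤ 1408 * LN ^ (t + 1) := by exact_mod_cast p4.le
    have hl2 : (0.6931471803 : ℝ) < Real.log 2 := Real.log_two_gt_d9
    have hl2' : Real.log 2 < 0.6931471808 := Real.log_two_lt_d9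
    have hlog : Real.log n ≤ (t + 2) * (64 * Real.log 2) := by
      have h1 := Real.log_le_log (by linarith) p4r
      rw [Real.log_mul (by norm_num) (by positivity), Real.log_pow] at h1
      have h5 : Real.log (LN : ℝ) = 64 * Real.log 2 := by
        rw [hLr, Real.log_pow]; norm_num
      have h6 : Real.log 1408 ≤ 64 * Real.log 2 := by
        have : Real.log 1408 ≤ Real.log (2 ^ 11) := Real.log_le_log (by norm_num) (by norm_num)
        rw [Real.log_pow] at this
        push_cast at this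
        linarith
      rw [h5] at h1
      push_cast at h1
      linarith
    have h7 : Real.log n ≤ 128 * (t - 6 * Real.log 2) := by nlinarith
    have h8 : n * Real.log n ≤ 1408 * LN ^ (t + 1) * (128 * (t - 6 * Real.log 2)) :=
      mul_le_mul p4r h7 hlogn.le (by positivity)
    have h9 : n * Real.log n ≤ E * (ZZ S n).card := by
      have h10 : 1408 * (LN : ℝ) ^ (t + 1) * (128 * (t - 6 * Real.log 2)) =
          1408 * 128 * LN * (LN ^ t * (t - 6 * Real.log 2)) := by ring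
      have h11 : 1408 * 128 * (LN : ℝ) * (LN ^ t * (t - 6 * Real.log 2)) ≤
          1408 * 128 * LN * (LN * P * (6 * (ZZ S n).card)) :=
        mul_le_mul_of_nonneg_left lc (by positivity)
      have h12 : 1408 * 128 * (LN : ℝ) * (LN * P * (6 * (ZZ S n).card)) =
          E * (ZZ S n).card := by rw [hE]; ring
      linarith
    calc min (1 / B) (1 / E) * n * Real.log n = min (1 / B) (1 / E) * (n * Real.log n) := by ring
      _ ≤ 1 / E * (n * Real.log n) := mul_le_mul_of_nonneg_right (min_le_right _ _) hnl.le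
      _ ≤ 1 / E * (E * (ZZ S n).card) := mul_le_mul_of_nonneg_left h9 (by positivity)
      _ = (ZZ S n).card := by field_simp

end

end Pool.Agent.MTL
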