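import Pool.Agent.MTL.L1

/-!
# The main estimate: from rows `[8h₀,16h₀)` to rows `[4q,8q)`, `q = 2^(g+4) h₀`
-/

namespace Pool.Agent.MTL

open Finset

noncomputable section

/-- (E4): the negative part at an exceptional place is controlled by the small rows -/
lemma E4 (f : ℤ → ℝ) (h0 m κ : ℤ) (Ba : Finset ℤ) (h0p : 0 ≤ h0)
    (hBa : 4 * (Ba.card : ℤ) ≤ h0)
    (hgood : ∀ x, κ - 2 * h0 ≤ x → x ≤ κ + 2 * h0 → m + x ∉ Ba → 0 ≤ dd f m x) :
    (h0 : ℝ) * max (-dd f m κ) 0 ≤ al f h0 (m + κ) + al f h0 (m - κ) := by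
  classical
  have hnn : 0 ≤ al f h0 (m + κ) + al f h0 (m - κ) := add_nonneg (al_nonneg _ _ _) (al_nonneg _ _ _)
  set G : Finset ℤ := (Ico h0 (2 * h0)).filter
    (fun h => m + (κ + h) ∉ Ba ∧ m + (κ - h) ∉ Ba) with hG
  have hcard : h0 ≤ 2 * (G.card : ℤ) := by
    have hsub : Ico h0 (2 * h0) ⊆ G ∪ (Ba.image (fun y => y - m - κ) ∪
        Ba.image (fun y => m + κ - y)) := by
      intro h hh
      by_cases h1 : m + (κ + h) ∈ Ba
      · refine mem_union_right _ (mem_union_left _ ?_)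
        exact mem_image.mpr ⟨_, h1, by ring⟩
      · by_cases h2 : m + (κ - h) ∈ Ba
        · refine mem_union_right _ (mem_union_right _ ?_)
          exact mem_image.mpr ⟨_, h2, by ring⟩
        · exact mem_union_left _ (mem_filter.mpr ⟨hh, h1, h2⟩)
    have c1 := Finset.card_le_card hsub
    have c2 := Finset.card_union_le G (Ba.image (fun y => y - m - κ) ∪
        Ba.image (fun y => m + κ - y))
    have c3 := Finset.card_union_le (Ba.image (fun y => y - m - κ))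
        (Ba.image (fun y => m + κ - y))
    have c4 : (Ba.image (fun y => y - m - κ)).card ≤ Ba.card := card_image_le
    have c5 : (Ba.image (fun y => m + κ - y)).card ≤ Ba.card := card_image_le
    rw [Int.card_Ico] at c1
    omega
  have key : ∀ h ∈ G, 2 * max (-dd f m κ) 0 ≤ |dd f (m + κ) h| + |dd f (m - κ) h| := by
    intro h hh
    rw [hG, mem_filter, mem_Ico] at hh
    obtain ⟨⟨h1, h2⟩, h3, h4⟩ := hh
    have g1 := hgood (κ + h) (by linarith) (by linarith) h3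
    have g2 := hgood (κ - h) (by linarith) (by linarith) h4
    have e := dd_large f m κ h
    have a1 := le_abs_self (dd f (m + κ) h)
    have a2 := le_abs_self (dd f (m - κ) h)
    have a3 := abs_nonneg (dd f (m + κ) h)
    have a4 := abs_nonneg (dd f (m - κ) h)
    rcases max_cases (-dd f m κ) 0 with ⟨h5, _⟩ | ⟨h5, _⟩
    · rw [h5]; linarith
    · rw [h5]; linarith
  have hs := Finset.sum_le_sum key
  rw [Finset.sum_const, nsmul_eq_mul, Finset.sum_add_distrib] at hs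
  have s1 : ∀ y, ∑ h ∈ G, |dd f y h| ≤ al f h0 y := fun y =>
    Finset.sum_le_sum_of_subset_of_nonneg (filter_subset _ _) (fun _ _ _ => abs_nonneg _)
  have s2 := s1 (m + κ)
  have s3 := s1 (m - κ)
  have hc : (h0 : ℝ) ≤ 2 * (G.card : ℝ) := by exact_mod_cast hcard
  have hm : 0 ≤ max (-dd f m κ) 0 := le_max_right _ _
  have := mul_le_mul_of_nonneg_right hc hm
  linarith

/-- sums along an arithmetic progression -/
lemma sum_prog (f : ℤ → ℝ) (h0 K m r u v : ℤ) (s : ℤ) (hr : r ≠ 0)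
    (hsub : ∀ k ∈ Ico K (2 * K), u ≤ m + s * (r * k) ∧ m + s * (r * k) < v) (hs : s ≠ 0) :
    ∑ k ∈ Ico K (2 * K), al f h0 (m + s * (r * k)) ≤ A f h0 u v := by
  classical
  have hinj : Set.InjOn (fun k : ℤ => m + s * (r * k)) (Ico K (2 * K) : Finset ℤ) := by
    intro x _ y _ hxy
    simp only at hxy
    have : s * (r * x) = s * (r * y) := by linarith
    exact mul_left_cancel₀ hr (mul_left_cancel₀ hs this)
  rw [← Finset.sum_image (f := fun x => al f h0 x) (g := fun k : ℤ => m + s * (r * k)) hinj]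
  refine Finset.sum_le_sum_of_subset_of_nonneg ?_ (fun _ _ _ => al_nonneg _ _ _)
  intro x hx
  obtain ⟨k, hk, rfl⟩ := mem_image.mp hx
  exact mem_Ico.mpr (hsub k hk)

/-- the exceptional places contribute little -/
lemma M_est (f : ℤ → ℝ) (h0 a b q : ℤ) (z i : ℕ) (Bc Ba : Finset ℤ) (h0p : 1 ≤ h0)
    (hBa : 4 * (Ba.card : ℤ) ≤ h0) (hBc : Bc.card ≤ z)
    (hi : 2 ^ i * (8 * h0) * 4 ≤ q) (hq : 2 * h0 ≤ q)
    (hyp : ∀ m κ, a - 4 * q ≤ m → m < b + 4 * q → 6 * h0 ≤ κ → κ ≤ 2 * q →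
      (1 ≤ dd f m κ ∨ (m ∈ Bc ∧ m + κ ∈ Ba))) :
    (q : ℝ) * ∑ k ∈ Ico (8 * h0) (2 * (8 * h0)), M f (2 ^ i * k) (a - 3 * (2 ^ i * k))
        (b + 3 * (2 ^ i * k)) ≤ 2 * z * A f (4 * q) (a - 4 * q) (b + 4 * q) := by
  classical
  have hqp : 0 < q := by linarith
  have h0r : (0 : ℝ) < h0 := by exact_mod_cast (by linarith : (0 : ℤ) < h0)
  -- range of `2^i k`
  have rng : ∀ k ∈ Ico (8 * h0) (2 * (8 * h0)), 8 * h0 ≤ 2 ^ i * k ∧ 2 * (2 ^ i * k) ≤ q := by
    intro k hk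
    rw [mem_Ico] at hk
    have p1 : (1 : ℤ) ≤ 2 ^ i := one_le_pow₀ (by norm_num)
    constructor
    · nlinarith
    · have : (2 : ℤ) ^ i * k ≤ 2 ^ i * (2 * (8 * h0)) :=
        mul_le_mul_of_nonneg_left (by linarith) (by positivity)
      linarith
  have step : ∀ k ∈ Ico (8 * h0) (2 * (8 * h0)),
      (h0 : ℝ) * M f (2 ^ i * k) (a - 3 * (2 ^ i * k)) (b + 3 * (2 ^ i * k)) ≤
      ∑ m ∈ Bc.filter (fun m => 2 * a - 3 * q ≤ 2 * m ∧ 2 * m < 2 * b + 3 * q),
        (al f h0 (m + 1 * (2 ^ i * k)) + al f h0 (m + (-1) * (2 ^ i * k))) := by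
    intro k hk
    obtain ⟨r1, r2⟩ := rng k hk
    unfold M
    rw [Finset.mul_sum]
    have hsplit : ∀ m ∈ Ico (a - 3 * (2 ^ i * k)) (b + 3 * (2 ^ i * k)),
        (h0 : ℝ) * max (-dd f m (2 ^ i * k)) 0 ≤
        if m ∈ Bc then (al f h0 (m + 1 * (2 ^ i * k)) + al f h0 (m + (-1) * (2 ^ i * k)))
        else 0 := by
      intro m hm
      rw [mem_Ico] at hm
      by_cases hmB : m ∈ Bc
      · rw [if_pos hmB]
        have := E4 f h0 m (2 ^ i * k) Ba (by linarith) hBa (by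
          intro x hx1 hx2 hx3
          rcases hyp m x (by linarith) (by linarith) (by linarith) (by linarith) with h | h
          · linarith
          · exact absurd h.2 hx3)
        have e1 : m + 1 * (2 ^ i * k) = m + 2 ^ i * k := by ring
        have e2 : m + (-1) * (2 ^ i * k) = m - 2 ^ i * k := by ring
        rw [e1, e2]
        exact this
      · rw [if_neg hmB]
        rcases hyp m (2 ^ i * k) (by linarith) (by linarith) (by linarith) (by linarith) with h | h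
        · rw [max_eq_right (by linarith)]; simp
        · exact absurd h.1 hmB
    refine (Finset.sum_le_sum hsplit).trans ?_
    rw [← Finset.sum_filter]
    refine Finset.sum_le_sum_of_subset_of_nonneg ?_
      (fun _ _ _ => add_nonneg (al_nonneg _ _ _) (al_nonneg _ _ _))
    intro m hm
    rw [mem_filter, mem_Ico] at hm
    rw [mem_filter]
    exact ⟨hm.2, by linarith, by linarith⟩
  have step2 := Finset.sum_le_sum step
  rw [← Finset.mul_sum, Finset.sum_comm] at step2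
  have step3 : ∀ m ∈ Bc.filter (fun m => 2 * a - 3 * q ≤ 2 * m ∧ 2 * m < 2 * b + 3 * q),
      ∑ k ∈ Ico (8 * h0) (2 * (8 * h0)),
        (al f h0 (m + 1 * (2 ^ i * k)) + al f h0 (m + (-1) * (2 ^ i * k))) ≤
      2 * A f h0 (a - 2 * q) (b + 2 * q) := by
    intro m hm
    rw [mem_filter] at hm
    obtain ⟨_, hm1, hm2⟩ := hm
    rw [Finset.sum_add_distrib]
    have q1 := sum_prog f h0 (8 * h0) m (2 ^ i) (a - 2 * q) (b + 2 * q) 1 (by positivity)
      (by intro k hk; obtain ⟨r1, r2⟩ := rng k hk; constructor <;> linarith) (by norm_num)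
    have q2 := sum_prog f h0 (8 * h0) m (2 ^ i) (a - 2 * q) (b + 2 * q) (-1) (by positivity)
      (by intro k hk; obtain ⟨r1, r2⟩ := rng k hk; constructor <;> linarith) (by norm_num)
    linarith
  have step4 := Finset.sum_le_sum step3
  rw [Finset.sum_const, nsmul_eq_mul] at step4
  have hcard : ((Bc.filter (fun m => 2 * a - 3 * q ≤ 2 * m ∧ 2 * m < 2 * b + 3 * q)).card : ℝ) ≤
      z := by
    exact_mod_cast (card_le_card (filter_subset _ _)).trans hBc
  have hA := A_nonneg f h0 (a - 2 * q) (b + 2 * q)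
  have step5 : (h0 : ℝ) * ∑ k ∈ Ico (8 * h0) (2 * (8 * h0)), M f (2 ^ i * k)
      (a - 3 * (2 ^ i * k)) (b + 3 * (2 ^ i * k)) ≤ z * (2 * A f h0 (a - 2 * q) (b + 2 * q)) :=
    (step2.trans step4).trans (mul_le_mul_of_nonneg_right hcard (by linarith))
  have step6 := A_le f q h0 (a - 2 * q) (b + 2 * q) (by linarith) hq
  have step7 := A_mono f (4 * q) (a := a - 2 * q - 2 * h0) (b := b + 2 * q + 2 * h0)
    (a' := a - 4 * q) (b' := b + 4 * q) (by linarith) (by linarith)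
  have hz : (0 : ℝ) ≤ z := Nat.cast_nonneg _
  have hqr : (0 : ℝ) < q := by exact_mod_cast hqp
  set Y := ∑ k ∈ Ico (8 * h0) (2 * (8 * h0)), M f (2 ^ i * k)
      (a - 3 * (2 ^ i * k)) (b + 3 * (2 ^ i * k)) with hY
  set X := A f (4 * q) (a - 4 * q) (b + 4 * q) with hX
  have t1 : (q : ℝ) * (h0 * Y) ≤ q * (z * (2 * A f h0 (a - 2 * q) (b + 2 * q))) :=
    mul_le_mul_of_nonneg_left step5 hqr.le
  have t2 : (2 * z : ℝ) * (q * A f h0 (a - 2 * q) (b + 2 * q)) ≤ (2 * z) * (h0 * X) := by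
    refine mul_le_mul_of_nonneg_left (step6.trans ?_) (by positivity)
    exact mul_le_mul_of_nonneg_left step7 h0r.le
  have t3 : (h0 : ℝ) * (q * Y) ≤ h0 * (2 * z * X) := by nlinarith
  exact le_of_mul_le_mul_left t3 h0r

lemma geom_le (g : ℕ) : ∑ i ∈ range g, (1 / 4 : ℝ) ^ i ≤ 4 / 3 := by
  have h : ∀ n : ℕ, ∑ i ∈ range n, (1 / 4 : ℝ) ^ i = 4 / 3 - 4 / 3 * (1 / 4) ^ n := by
    intro n
    induction n with
    | zero => norm_num
    | succ n ih => rw [Finset.sum_range_succ, ih]; ring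
  rw [h]
  have : (0 : ℝ) ≤ (1 / 4 : ℝ) ^ g := by positivity
  linarith

/-- the main estimate -/
lemma main_est (f : ℤ → ℝ) (h0 a b q : ℤ) (z g : ℕ) (Bc Ba : Finset ℤ) (h0p : 1 ≤ h0)
    (hg : 1 ≤ g) (hBa : 4 * (Ba.card : ℤ) ≤ h0) (hBc : Bc.card ≤ z)
    (hq : q = 2 ^ (g + 1) * (8 * h0))
    (hyp : ∀ m κ, a - 4 * q ≤ m → m < b + 4 * q → 6 * h0 ≤ κ → κ ≤ 2 * q →
      (1 ≤ dd f m κ ∨ (m ∈ Bc ∧ m + κ ∈ Ba))) :
    (q : ℝ) * A f (8 * h0) a b ≤ ((1 / 4 : ℝ) ^ g * (8 * h0) + 5 * z) *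
      A f (4 * q) (a - 4 * q) (b + 4 * q) := by
  have hp1 : (1 : ℤ) ≤ 2 ^ (g + 1) := one_le_pow₀ (by norm_num)
  have hq8 : 8 * h0 ≤ q := by rw [hq]; nlinarith
  have hqr : (0 : ℝ) < q := by exact_mod_cast (by linarith : (0 : ℤ) < q)
  have hqi : ∀ i, i < g → (2 : ℤ) ^ i * (8 * h0) * 4 ≤ q := by
    intro i hi
    have : (2 : ℤ) ^ (i + 2) ≤ 2 ^ (g + 1) := pow_le_pow_right₀ (by norm_num) (by omega)
    have e : (2 : ℤ) ^ i * (8 * h0) * 4 = 2 ^ (i + 2) * (8 * h0) := by ring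
    rw [e, hq]
    exact mul_le_mul_of_nonneg_right this (by linarith)
  set X := A f (4 * q) (a - 4 * q) (b + 4 * q) with hX
  have hXn : 0 ≤ X := A_nonneg _ _ _ _
  have hME : ∀ i, i < g → (q : ℝ) * ∑ k ∈ Ico (8 * h0) (2 * (8 * h0)), M f (2 ^ i * k)
      (a - 3 * (2 ^ i * k)) (b + 3 * (2 ^ i * k)) ≤ 2 * z * X := fun i hi =>
    M_est f h0 a b q z i Bc Ba h0p hBa hBc (hqi i hi) (by linarith) hyp
  rw [A_eq]
  have e0 : ∀ k, N f k a b = P f k a b + M f k a b := fun k => (P_add_M f k a b).symm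
  simp only [e0]
  rw [Finset.sum_add_distrib, mul_add]
  -- the part M
  have m0 : (q : ℝ) * ∑ k ∈ Ico (8 * h0) (2 * (8 * h0)), M f k a b ≤ 2 * z * X := by
    refine le_trans ?_ (hME 0 (by omega))
    refine mul_le_mul_of_nonneg_left (Finset.sum_le_sum fun k hk => ?_) hqr.le
    rw [mem_Ico] at hk
    have e : (2 : ℤ) ^ 0 * k = k := by ring
    rw [e]
    exact M_mono f k (by linarith) (by linarith)
  -- the part P
  have hP : ∀ k ∈ Ico (8 * h0) (2 * (8 * h0)), (q : ℝ) * P f k a b ≤ (1 / 4 : ℝ) ^ g * X +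
      ∑ i ∈ range g, (1 / 4 : ℝ) ^ i * (q * M f (2 ^ i * k) (a - 3 * (2 ^ i * k))
        (b + 3 * (2 ^ i * k))) := by
    intro k hk
    rw [mem_Ico] at hk
    have it := iter f k a b (by linarith) g
    have hgk : (2 : ℤ) ^ g * k ≤ q := by
      rw [hq]
      have : (2 : ℤ) ^ g * k ≤ 2 ^ g * (2 * (8 * h0)) :=
        mul_le_mul_of_nonneg_left (by linarith) (by positivity)
      have e : (2 : ℤ) ^ (g + 1) * (8 * h0) = 2 ^ g * (2 * (8 * h0)) := by ring
      linarith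
    have hgk0 : (0 : ℤ) ≤ 2 ^ g * k := by
      have : (0 : ℤ) ≤ k := by linarith
      positivity
    have nl := N_le f q (2 ^ g * k) (a - (2 ^ g - 1) * k) (b + (2 ^ g - 1) * k) hgk0 hgk
    have pn := P_le_N f (2 ^ g * k) (a - (2 ^ g - 1) * k) (b + (2 ^ g - 1) * k)
    have am := A_mono f (4 * q) (a := a - (2 ^ g - 1) * k - 2 ^ g * k)
      (b := b + (2 ^ g - 1) * k + 2 ^ g * k) (a' := a - 4 * q) (b' := b + 4 * q)
      (by nlinarith) (by nlinarith)
    have pq : (q : ℝ) * P f (2 ^ g * k) (a - (2 ^ g - 1) * k) (b + (2 ^ g - 1) * k) ≤ X := by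
      have := mul_le_mul_of_nonneg_left pn hqr.le
      linarith
    have hp : (0 : ℝ) ≤ (1 / 4 : ℝ) ^ g := by positivity
    have s1 := mul_le_mul_of_nonneg_left it hqr.le
    have s2 := mul_le_mul_of_nonneg_left pq hp
    have s3 : (q : ℝ) * ∑ i ∈ range g, (1 / 4 : ℝ) ^ i * M f (2 ^ i * k) (a - 3 * (2 ^ i * k))
        (b + 3 * (2 ^ i * k)) = ∑ i ∈ range g, (1 / 4 : ℝ) ^ i * (q * M f (2 ^ i * k)
        (a - 3 * (2 ^ i * k)) (b + 3 * (2 ^ i * k))) := by
      rw [Finset.mul_sum]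
      exact Finset.sum_congr rfl fun i _ => by ring
    rw [mul_add, s3] at s1
    linarith
  have hPs := Finset.sum_le_sum hP
  rw [← Finset.mul_sum, Finset.sum_add_distrib, Finset.sum_const, Int.card_Ico, nsmul_eq_mul,
    Finset.sum_comm] at hPs
  have hc : (((2 * (8 * h0) - 8 * h0).toNat : ℕ) : ℝ) = 8 * (h0 : ℝ) := by
    have : ((2 * (8 * h0) - 8 * h0).toNat : ℤ) = 8 * h0 := by
      rw [Int.toNat_of_nonneg (by linarith)]; ring
    exact_mod_cast this
  rw [hc] at hPs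
  have hI : ∑ i ∈ range g, ∑ k ∈ Ico (8 * h0) (2 * (8 * h0)), (1 / 4 : ℝ) ^ i *
      (q * M f (2 ^ i * k) (a - 3 * (2 ^ i * k)) (b + 3 * (2 ^ i * k))) ≤
      4 / 3 * (2 * z * X) := by
    have : ∀ i ∈ range g, ∑ k ∈ Ico (8 * h0) (2 * (8 * h0)), (1 / 4 : ℝ) ^ i *
      (q * M f (2 ^ i * k) (a - 3 * (2 ^ i * k)) (b + 3 * (2 ^ i * k))) ≤
      (1 / 4 : ℝ) ^ i * (2 * z * X) := by
      intro i hi
      rw [← Finset.mul_sum, ← Finset.mul_sum]
      exact mul_le_mul_of_nonneg_left (hME i (mem_range.mp hi)) (by positivity)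
    refine (Finset.sum_le_sum this).trans ?_
    rw [← Finset.sum_mul]
    exact mul_le_mul_of_nonneg_right (geom_le g) (by positivity)
  have hzX : (0 : ℝ) ≤ z * X := by positivity
  nlinarith

/-- lower bound for the rows `[8h₀,16h₀)` -/
lemma A_ge (f : ℤ → ℝ) (K a b : ℤ) (z : ℕ) (Bc : Finset ℤ) (hK : 0 ≤ K) (hBc : Bc.card ≤ z)
    (hyp : ∀ m κ, a ≤ m → m < b → K ≤ κ → κ < 2 * K → m ∉ Bc → 1 ≤ dd f m κ) :
    (K : ℝ) * ((b - a : ℤ) - z) ≤ A f K a b := by
  classical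
  rw [A_eq]
  have : ∀ k ∈ Ico K (2 * K), ((b - a : ℤ) : ℝ) - z ≤ N f k a b := by
    intro k hk
    rw [mem_Ico] at hk
    have h1 : ∑ m ∈ (Ico a b) \ Bc, (1 : ℝ) ≤ N f k a b := by
      unfold N
      refine le_trans ?_ (Finset.sum_le_sum_of_subset_of_nonneg
        (s := (Ico a b) \ Bc) sdiff_subset (fun _ _ _ => abs_nonneg _))
      refine Finset.sum_le_sum fun m hm => ?_
      rw [mem_sdiff, mem_Ico] at hm
      exact (hyp m k hm.1.1 hm.1.2 hk.1 hk.2 hm.2).trans (le_abs_self _)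
    rw [Finset.sum_const, nsmul_eq_mul, mul_one] at h1
    have h2 := Finset.le_card_sdiff Bc (Ico a b)
    rw [Int.card_Ico] at h2
    have h3 : (b - a : ℤ) ≤ z + ((Ico a b) \ Bc).card := by omega
    have h4 : ((b - a : ℤ) : ℝ) ≤ z + (((Ico a b) \ Bc).card : ℝ) := by exact_mod_cast h3
    linarith
  have hs := Finset.sum_le_sum this
  rw [Finset.sum_const, Int.card_Ico, nsmul_eq_mul] at hs
  have hc : (((2 * K - K).toNat : ℕ) : ℝ) = (K : ℝ) := by
    have : ((2 * K - K).toNat : ℤ) = K := by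
      rw [Int.toNat_of_nonneg (by linarith)]; ring
    exact_mod_cast this
  rw [hc] at hs
  exact hs

end

end Pool.Agent.MTL
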