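import Pool.Agent.MTL.Cheap

/-!
# The potential argument over all scales
-/

namespace Pool.Agent.MTL

open Finset

noncomputable section

lemma ddZ_abs {S : ℤ → ℤ} (hS : Steps S) (m : ℤ) (k : ℤ) (hk : 0 ≤ k) :
    |ddZ S m k| ≤ k := by
  induction k, hk using Int.leInduction with
  | base =>
    have : ddZ S m 0 = 0 := by unfold ddZ; simp; ring
    rw [this]; simp
  | succ k hk ih =>
    have v := ddZ_vert hS m k
    rw [abs_le] at ih ⊢
    constructor <;> omega

/-- the top cell -/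
lemma DD_top {S : ℤ → ℤ} (hS : Steps S) (W x : ℤ) (hW : 1 ≤ W) :
    DD (fun i => (S i : ℝ)) W x ≤ 64 * W := by
  have hW0 : (0 : ℤ) < W := by linarith
  have hWr : (1 : ℝ) ≤ W := by exact_mod_cast hW
  have h1 : A (fun i => (S i : ℝ)) (8 * W) (x - 128 * W) (x + 256 * W) ≤
      (384 * W) * ((8 * W) * (16 * W)) := by
    unfold A al
    have : ∀ m ∈ Ico (x - 128 * W) (x + 256 * W), ∑ k ∈ Ico (8 * W) (2 * (8 * W)),
        |dd (fun i => (S i : ℝ)) m k| ≤ (8 * W) * (16 * (W : ℝ)) := by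
      intro m _
      have h2 : ∀ k ∈ Ico (8 * W) (2 * (8 * W)), |dd (fun i => (S i : ℝ)) m k| ≤
          16 * (W : ℝ) := by
        intro k hk
        rw [mem_Ico] at hk
        rw [dd_cast]
        have h3 := ddZ_abs hS m k (by linarith)
        have h4 : |ddZ S m k| ≤ 16 * W := by linarith
        exact_mod_cast h4
      refine (Finset.sum_le_sum h2).trans ?_
      rw [Finset.sum_const, Int.card_Ico, nsmul_eq_mul]
      have hc : (((2 * (8 * W) - 8 * W).toNat : ℕ) : ℝ) = 8 * (W : ℝ) := by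
        have : ((2 * (8 * W) - 8 * W).toNat : ℤ) = 8 * W := by
          rw [Int.toNat_of_nonneg (by linarith)]; ring
        exact_mod_cast this
      rw [hc]
    refine (Finset.sum_le_sum this).trans ?_
    rw [Finset.sum_const, Int.card_Ico, nsmul_eq_mul]
    have hc : (((x + 256 * W - (x - 128 * W)).toNat : ℕ) : ℝ) = 384 * (W : ℝ) := by
      have : ((x + 256 * W - (x - 128 * W)).toNat : ℤ) = 384 * W := by
        rw [Int.toNat_of_nonneg (by linarith)]; ring
      exact_mod_cast this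
    rw [hc]
  unfold DD
  have h2 : A (fun i => (S i : ℝ)) (8 * W) (x - 128 * W) (x + 256 * W) /
      (1024 * (W : ℝ) ^ 2) ≤ 48 * W := by
    rw [div_le_iff₀ (by positivity)]
    nlinarith
  linarith

/-- the inequality for one cell, with its number of zeros -/
lemma cell_ineq {S : ℤ → ℤ} (hS : Steps S) (W x : ℤ) (Z : Finset (ℤ × ℤ)) (hW : 1 ≤ W)
    (hZ : ∀ m κ, x - 128 * (LN * W) ≤ m → m < x + 256 * (LN * W) → 4 * W ≤ κ →
      κ ≤ 512 * (LN * W) → ddZ S m κ = 0 → (m, κ) ∈ Z) :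
    ∑ j ∈ range LN, Real.log (DD (fun i => (S i : ℝ)) W (x + (j : ℤ) * (128 * W))) ≤
      LN * (Real.log (DD (fun i => (S i : ℝ)) (LN * W) x) - 64 * Real.log 2 - 1 +
        2 ^ 132 * Z.card / W) := by
  have hW0 : (0 : ℤ) < W := by linarith
  have hWr : (0 : ℝ) < W := by exact_mod_cast hW0
  have hLr := LN_real
  have hLp : (0 : ℝ) < LN := by rw [hLr]; positivity
  by_cases hc : 2 ^ 125 * (Z.card : ℤ) ≤ W
  · refine (cheap_cell hS W x Z.card Z hW hc hZ le_rfl).trans ?_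
    refine mul_le_mul_of_nonneg_left ?_ hLp.le
    have : (0 : ℝ) ≤ 2 ^ 132 * Z.card / W :=
      div_nonneg (mul_nonneg (pow_nonneg (by norm_num) _) (Nat.cast_nonneg _)) hWr.le
    linarith
  · set f : ℤ → ℝ := fun i => (S i : ℝ) with hf
    set D := DD f (LN * W) x with hD
    have hD1 : 1 ≤ D := one_le_DD _ _ _
    have hlogL : Real.log (LN : ℝ) = 64 * Real.log 2 := by
      rw [hLr, Real.log_pow]; norm_num
    have h1 : ∀ j ∈ range LN, Real.log (DD f W (x + (j : ℤ) * (128 * W))) ≤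
        Real.log D + 66 * Real.log 2 := by
      intro j hj
      have hjr : j < LN := mem_range.mp hj
      have h1 := child_any f W x hW j hjr
      have h2 : 0 < DD f W (x + (j : ℤ) * (128 * W)) :=
        lt_of_lt_of_le one_pos (one_le_DD _ _ _)
      have h3 := Real.log_le_log h2 h1
      rw [Real.log_mul (by positivity) (by positivity), Real.log_mul (by norm_num) hLp.ne',
        hlogL] at h3
      have : Real.log 4 = 2 * Real.log 2 := by
        rw [show (4 : ℝ) = 2 ^ 2 by norm_num, Real.log_pow]; norm_num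
      rw [this] at h3
      linarith
    refine (Finset.sum_le_sum h1).trans ?_
    rw [Finset.sum_const, nsmul_eq_mul, card_range]
    refine mul_le_mul_of_nonneg_left ?_ hLp.le
    have h2 : (W : ℝ) ≤ 2 ^ 125 * Z.card := by
      have : W ≤ 2 ^ 125 * (Z.card : ℤ) := (not_le.mp hc).le
      exact_mod_cast this
    have h3 : (128 : ℝ) ≤ 2 ^ 132 * Z.card / W := by
      rw [le_div_iff₀ hWr]
      nlinarith
    have hl2' : Real.log 2 < 0.6931471808 := Real.log_two_lt_d9
    linarith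

lemma sum_range_blocks (g : ℕ → ℝ) (a b : ℕ) :
    ∑ n ∈ range (a * b), g n = ∑ i ∈ range a, ∑ j ∈ range b, g (i * b + j) := by
  induction a with
  | zero => simp
  | succ a ih => rw [Nat.succ_mul, Finset.sum_range_add, ih, Finset.sum_range_succ]

/-- a family of integers with pairwise distance less than `c` -/
lemma card_le_of_close (T : Finset ℕ) (c : ℕ) (h : ∀ i ∈ T, ∀ j ∈ T, j < i + c) :
    T.card ≤ c := by
  by_cases hTe : T.Nonempty
  · obtain ⟨j0, hj0, hmin⟩ : ∃ j ∈ T, ∀ i ∈ T, j ≤ i :=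
      ⟨T.min' hTe, T.min'_mem hTe, fun i hi => T.min'_le i hi⟩
    have hsub : T ⊆ Ico j0 (j0 + c) := by
      intro j hj
      rw [mem_Ico]
      exact ⟨hmin j hj, h j0 hj0 j hj⟩
    have h1 := card_le_card hsub
    rw [Nat.card_Ico] at h1
    omega
  · rw [Finset.not_nonempty_iff_eq_empty] at hTe
    rw [hTe]
    simp

/-- the region of the cell at `y` with child scale `W` -/
def InR (W y : ℤ) (p : ℤ × ℤ) : Prop :=
  (y - 128 * (LN * W) ≤ p.1 ∧ p.1 < y + 256 * (LN * W)) ∧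
    (4 * W ≤ p.2 ∧ p.2 ≤ 512 * (LN * W))

open Classical in
/-- every point lies in at most six regions -/
lemma six (t : ℕ) (x : ℤ) (p : ℤ × ℤ) :
    ∑ i ∈ range t, ∑ a ∈ range (LN ^ (t - (i + 1))),
      (if InR ((LN : ℤ) ^ i) (x + (a : ℤ) * (128 * (LN * LN ^ i))) p then 1 else 0) ≤ 6 := by
  have hL := LN_int
  have hL0 : (0 : ℤ) < LN := by rw [hL]; norm_num
  have h1 : ∀ i ∈ range t, ∑ a ∈ range (LN ^ (t - (i + 1))),
      (if InR ((LN : ℤ) ^ i) (x + (a : ℤ) * (128 * (LN * LN ^ i))) p then 1 else 0) ≤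
      (if (4 * (LN : ℤ) ^ i ≤ p.2 ∧ p.2 ≤ 512 * (LN * LN ^ i)) then 3 else 0) := by
    intro i _
    by_cases hc : 4 * (LN : ℤ) ^ i ≤ p.2 ∧ p.2 ≤ 512 * (LN * LN ^ i)
    · rw [if_pos hc, ← Finset.card_filter]
      refine card_le_of_close _ 3 ?_
      intro a ha b hb
      rw [mem_filter] at ha hb
      have ha1 := ha.2.1.2
      have hb1 := hb.2.1.1
      by_contra hcon
      have h3 : (a : ℤ) + 3 ≤ b := by exact_mod_cast (not_lt.mp hcon)
      have hpos : (0 : ℤ) < 128 * (LN * LN ^ i) := by positivity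
      have h4 := mul_le_mul_of_nonneg_right h3 hpos.le
      linarith
    · rw [if_neg hc]
      refine le_of_eq (Finset.sum_eq_zero fun a _ => if_neg ?_)
      intro h
      exact hc h.2
  refine (Finset.sum_le_sum h1).trans ?_
  rw [← Finset.sum_filter, Finset.sum_const, smul_eq_mul]
  have h2 : ((range t).filter (fun i => 4 * (LN : ℤ) ^ i ≤ p.2 ∧
      p.2 ≤ 512 * (LN * LN ^ i))).card ≤ 2 := by
    refine card_le_of_close _ 2 ?_
    intro a ha b hb
    rw [mem_filter] at ha hb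
    by_contra hcon
    have h3 : a + 2 ≤ b := not_lt.mp hcon
    have h4 : (LN : ℤ) ^ (a + 2) ≤ LN ^ b := pow_le_pow_right₀ (by rw [hL]; norm_num) h3
    have h5 : (LN : ℤ) ^ (a + 2) = LN * (LN * LN ^ a) := by ring
    have h6 : (0 : ℤ) < LN * LN ^ a := by positivity
    have h7 : (1000 : ℤ) * (LN * LN ^ a) ≤ LN * (LN * LN ^ a) :=
      mul_le_mul_of_nonneg_right (by rw [hL]; norm_num) h6.le
    have h8 := ha.2.2
    have h9 := hb.2.1
    linarith
  omega

/-- the potential argument -/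
theorem potential {S : ℤ → ℤ} (hS : Steps S) (t : ℕ) (x : ℤ) (Z : Finset (ℤ × ℤ))
    (hZ : ∀ m κ : ℤ, x - 128 * (LN : ℤ) ^ t ≤ m → m < x + 256 * (LN : ℤ) ^ t → 1 ≤ κ →
      κ ≤ 512 * (LN : ℤ) ^ t → ddZ S m κ = 0 → (m, κ) ∈ Z) :
    (LN : ℝ) ^ t * (t - 6 * Real.log 2) ≤ LN * 2 ^ 132 * (6 * Z.card) := by
  classical
  have hL := LN_int
  have hLr := LN_real
  have hL0 : (0 : ℤ) < LN := by rw [hL]; norm_num
  have hL1 : (1 : ℤ) ≤ LN := by rw [hL]; norm_num
  have hLp : (0 : ℝ) < LN := by rw [hLr]; positivity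
  set f : ℤ → ℝ := fun i => (S i : ℝ) with hf
  -- level sums
  set TT : ℕ → ℝ := fun i => ∑ a ∈ range (LN ^ (t - i)),
    Real.log (DD f ((LN : ℤ) ^ i) (x + (a : ℤ) * (128 * LN ^ i))) with hTT
  set NN : ℕ → ℕ := fun i => ∑ a ∈ range (LN ^ (t - (i + 1))),
    (Z.filter (fun p => InR ((LN : ℤ) ^ i) (x + (a : ℤ) * (128 * (LN * LN ^ i))) p)).card
    with hNN
  have hrec : ∀ i, i < t → (LN : ℝ) ^ i * TT i ≤ LN ^ (i + 1) * TT (i + 1) -
      LN ^ t * (64 * Real.log 2 + 1) + LN * 2 ^ 132 * NN i := by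
    intro i hi
    have hW : (1 : ℤ) ≤ (LN : ℤ) ^ i := one_le_pow₀ hL1
    have hWr : (0 : ℝ) < (LN : ℝ) ^ i := by positivity
    have e1 : TT i = ∑ a ∈ range (LN ^ (t - (i + 1))), ∑ j ∈ range LN,
        Real.log (DD f ((LN : ℤ) ^ i) (x + (a : ℤ) * (128 * (LN * LN ^ i)) +
          (j : ℤ) * (128 * LN ^ i))) := by
      rw [hTT]
      simp only
      have h1 : t - i = (t - (i + 1)) + 1 := by omega
      rw [h1, pow_succ, sum_range_blocks]
      refine Finset.sum_congr rfl fun a _ => Finset.sum_congr rfl fun j _ => ?_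
      have h2 : x + ((a * LN + j : ℕ) : ℤ) * (128 * (LN : ℤ) ^ i) =
          x + (a : ℤ) * (128 * (LN * LN ^ i)) + (j : ℤ) * (128 * LN ^ i) := by
        push_cast; ring
      rw [h2]
    have e2 : ∀ a ∈ range (LN ^ (t - (i + 1))), ∑ j ∈ range LN,
        Real.log (DD f ((LN : ℤ) ^ i) (x + (a : ℤ) * (128 * (LN * LN ^ i)) +
          (j : ℤ) * (128 * LN ^ i))) ≤
        LN * (Real.log (DD f ((LN : ℤ) ^ (i + 1)) (x + (a : ℤ) * (128 * LN ^ (i + 1)))) -
          64 * Real.log 2 - 1 + 2 ^ 132 * ((Z.filter (fun p => InR ((LN : ℤ) ^ i)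
            (x + (a : ℤ) * (128 * (LN * LN ^ i))) p)).card : ℝ) / (LN : ℝ) ^ i) := by
      intro a ha
      have ha' : a + 1 ≤ LN ^ (t - (i + 1)) := mem_range.mp ha
      have ha2 : (a : ℤ) + 1 ≤ (LN : ℤ) ^ (t - (i + 1)) := by exact_mod_cast ha'
      have h3 : (LN : ℤ) ^ (t - (i + 1)) * (LN * LN ^ i) = LN ^ t := by
        rw [← pow_succ', ← pow_add]
        congr 1
        omega
      have h4 : (0 : ℤ) < (LN : ℤ) * LN ^ i := by positivity
      have h5 : ((a : ℤ) + 1) * (LN * LN ^ i) ≤ LN ^ t := by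
        rw [← h3]
        exact mul_le_mul_of_nonneg_right ha2 h4.le
      have h6 : (LN : ℤ) * LN ^ i ≤ LN ^ t := by
        have : (0 : ℤ) ≤ a * (LN * LN ^ i) := by positivity
        linarith
      have h7 : (0 : ℤ) ≤ a * (LN * LN ^ i) := by positivity
      have ci := cell_ineq hS ((LN : ℤ) ^ i) (x + (a : ℤ) * (128 * (LN * LN ^ i)))
        (Z.filter (fun p => InR ((LN : ℤ) ^ i) (x + (a : ℤ) * (128 * (LN * LN ^ i))) p)) hW
        (by
          intro m κ b1 b2 b3 b4 b5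
          rw [mem_filter]
          refine ⟨hZ m κ ?_ ?_ ?_ ?_ b5, ⟨b1, b2⟩, ⟨b3, b4⟩⟩
          · linarith
          · linarith
          · linarith
          · linarith)
      push_cast at ci
      have e3 : (LN : ℤ) * (LN : ℤ) ^ i = LN ^ (i + 1) := by rw [pow_succ']
      rw [e3] at ci ⊢
      exact ci
    have e4 := Finset.sum_le_sum e2
    rw [← e1, ← Finset.mul_sum, Finset.sum_add_distrib] at e4
    have e5 : ∑ a ∈ range (LN ^ (t - (i + 1))), (Real.log (DD f ((LN : ℤ) ^ (i + 1))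
        (x + (a : ℤ) * (128 * LN ^ (i + 1)))) - 64 * Real.log 2 - 1) =
        TT (i + 1) - LN ^ (t - (i + 1)) * (64 * Real.log 2 + 1) := by
      have : ∀ a ∈ range (LN ^ (t - (i + 1))), (Real.log (DD f ((LN : ℤ) ^ (i + 1))
        (x + (a : ℤ) * (128 * LN ^ (i + 1)))) - 64 * Real.log 2 - 1) =
        Real.log (DD f ((LN : ℤ) ^ (i + 1))
        (x + (a : ℤ) * (128 * LN ^ (i + 1)))) - (64 * Real.log 2 + 1) := by
        intro a _; ring
      rw [Finset.sum_congr rfl this, Finset.sum_sub_distrib, Finset.sum_const, card_range,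
        nsmul_eq_mul]
      push_cast
      rfl
    have e6 : ∑ a ∈ range (LN ^ (t - (i + 1))), 2 ^ 132 * ((Z.filter (fun p =>
        InR ((LN : ℤ) ^ i) (x + (a : ℤ) * (128 * (LN * LN ^ i))) p)).card : ℝ) /
        (LN : ℝ) ^ i = 2 ^ 132 * NN i / (LN : ℝ) ^ i := by
      rw [← Finset.sum_div, ← Finset.mul_sum, hNN]
      push_cast
      rfl
    rw [e5, e6] at e4
    have e7 := mul_le_mul_of_nonneg_left e4 hWr.le
    have e8 : (LN : ℝ) ^ i * (LN * (TT (i + 1) - LN ^ (t - (i + 1)) * (64 * Real.log 2 + 1) +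
        2 ^ 132 * NN i / (LN : ℝ) ^ i)) = LN ^ (i + 1) * TT (i + 1) -
        (LN ^ i * LN * LN ^ (t - (i + 1))) * (64 * Real.log 2 + 1) + LN * 2 ^ 132 * NN i := by
      field_simp
      ring
    have e9 : (LN : ℝ) ^ i * LN * LN ^ (t - (i + 1)) = LN ^ t := by
      rw [← pow_succ, ← pow_add]
      congr 1
      omega
    rw [e8, e9] at e7
    exact e7
  have hind : ∀ i, i ≤ t → TT 0 ≤ LN ^ i * TT i - i * ((LN : ℝ) ^ t * (64 * Real.log 2 + 1)) +
      LN * 2 ^ 132 * ∑ i' ∈ range i, (NN i' : ℝ) := by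
    intro i
    induction i with
    | zero => intro _; simp
    | succ i ih =>
      intro hi
      have h1 := ih (by omega)
      have h2 := hrec i (by omega)
      rw [Finset.sum_range_succ]
      push_cast
      linarith
  have h0 : 0 ≤ TT 0 := by
    rw [hTT]
    exact Finset.sum_nonneg fun a _ => Real.log_nonneg (one_le_DD _ _ _)
  have hTop : TT t ≤ 6 * Real.log 2 + t * (64 * Real.log 2) := by
    rw [hTT]
    simp only [Nat.sub_self, pow_zero, Finset.sum_range_one]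
    have h1 := DD_top hS ((LN : ℤ) ^ t) (x + ((0 : ℕ) : ℤ) * (128 * LN ^ t)) (one_le_pow₀ hL1)
    have h2 : 0 < DD f ((LN : ℤ) ^ t) (x + ((0 : ℕ) : ℤ) * (128 * LN ^ t)) :=
      lt_of_lt_of_le one_pos (one_le_DD _ _ _)
    have h3 := Real.log_le_log h2 h1
    push_cast at h3 ⊢
    rw [Real.log_mul (by norm_num) (by positivity), Real.log_pow] at h3
    have h4 : Real.log 64 = 6 * Real.log 2 := by
      rw [show (64 : ℝ) = 2 ^ 6 by norm_num, Real.log_pow]; norm_num
    have h5 : Real.log (LN : ℝ) = 64 * Real.log 2 := by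
      rw [hLr, Real.log_pow]; norm_num
    rw [h4, h5] at h3
    exact h3
  have hN : ∑ i ∈ range t, (NN i : ℝ) ≤ 6 * Z.card := by
    have : ∑ i ∈ range t, NN i ≤ 6 * Z.card := by
      rw [hNN]
      simp only [Finset.card_filter]
      have e1 : ∑ i ∈ range t, ∑ a ∈ range (LN ^ (t - (i + 1))), ∑ p ∈ Z,
          (if InR ((LN : ℤ) ^ i) (x + (a : ℤ) * (128 * (LN * LN ^ i))) p then 1 else 0) =
          ∑ p ∈ Z, ∑ i ∈ range t, ∑ a ∈ range (LN ^ (t - (i + 1))),
          (if InR ((LN : ℤ) ^ i) (x + (a : ℤ) * (128 * (LN * LN ^ i))) p then 1 else 0) := by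
        rw [Finset.sum_comm]
        refine Finset.sum_congr rfl fun i _ => ?_
        rw [Finset.sum_comm]
      rw [e1]
      calc ∑ p ∈ Z, ∑ i ∈ range t, ∑ a ∈ range (LN ^ (t - (i + 1))),
          (if InR ((LN : ℤ) ^ i) (x + (a : ℤ) * (128 * (LN * LN ^ i))) p then 1 else 0)
          ≤ ∑ _p ∈ Z, 6 := Finset.sum_le_sum fun p _ => six t x p
        _ = 6 * Z.card := by rw [Finset.sum_const, smul_eq_mul, mul_comm]
    exact_mod_cast this
  have hfin := hind t le_rfl
  have hLt : (0 : ℝ) < (LN : ℝ) ^ t := by positivity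
  have h1 := mul_le_mul_of_nonneg_left hTop hLt.le
  have h2 : (LN : ℝ) * 2 ^ 132 * ∑ i ∈ range t, (NN i : ℝ) ≤ LN * 2 ^ 132 * (6 * Z.card) :=
    mul_le_mul_of_nonneg_left hN (by positivity)
  linarith

end

end Pool.Agent.MTL
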