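import Pool.Agent.MTL.Lower

/-!
# The upper bound `C n (log n)^2`: random trigonometric sums at all scales
-/

namespace Pool.Agent.MTL

open Finset

noncomputable section

/-- cosine or sine -/
def ph (b : Bool) (x : ℝ) : ℝ := if b then Real.sin x else Real.cos x

lemma ph_lip (b : Bool) (x y : ℝ) : |ph b x - ph b y| ≤ |x - y| := by
  cases b
  · simpa [ph] using Real.abs_cos_sub_cos_le x y
  · simpa [ph] using Real.abs_sin_sub_sin_le x y

lemma ph_dd (b : Bool) (x y : ℝ) :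
    ph b (x + y) + ph b (x - y) - 2 * ph b x = -(2 * (1 - Real.cos y)) * ph b x := by
  cases b
  · simp only [ph, Bool.false_eq_true, if_false]
    rw [Real.cos_add, Real.cos_sub]; ring
  · simp only [ph, if_true]
    rw [Real.sin_add, Real.sin_sub]; ring

/-- the frequency of level `j` -/
def th (j : ℕ) : ℝ := 2 * Real.pi / 4 ^ (j + 1)

/-- the random function -/
def gg (J N : ℕ) (δ : ℝ) (u : Fin J × Bool → Fin N) (m : ℤ) : ℝ :=
  m / 2 + ∑ i : Fin J × Bool, δ * 4 ^ ((i.1 : ℕ) + 1) * (((u i : ℕ) : ℝ) / N) *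
    ph i.2 (th i.1 * m)

lemma gg_step (J N : ℕ) (δ : ℝ) (hδ : 0 ≤ δ) (hJ : 4 * Real.pi * J * δ ≤ 1 / 2)
    (u : Fin J × Bool → Fin N) (m : ℤ) :
    0 ≤ gg J N δ u (m + 1) - gg J N δ u m ∧ gg J N δ u (m + 1) - gg J N δ u m ≤ 1 := by
  have hpi := Real.pi_pos
  have e : gg J N δ u (m + 1) - gg J N δ u m - 1 / 2 = ∑ i : Fin J × Bool,
      δ * 4 ^ ((i.1 : ℕ) + 1) * (((u i : ℕ) : ℝ) / N) *
        (ph i.2 (th i.1 * ((m + 1 : ℤ) : ℝ)) - ph i.2 (th i.1 * m)) := by
    unfold gg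
    have : ∀ i : Fin J × Bool, δ * 4 ^ ((i.1 : ℕ) + 1) * (((u i : ℕ) : ℝ) / N) *
        (ph i.2 (th i.1 * ((m + 1 : ℤ) : ℝ)) - ph i.2 (th i.1 * m)) =
        δ * 4 ^ ((i.1 : ℕ) + 1) * (((u i : ℕ) : ℝ) / N) *
        ph i.2 (th i.1 * ((m + 1 : ℤ) : ℝ)) - δ * 4 ^ ((i.1 : ℕ) + 1) *
        (((u i : ℕ) : ℝ) / N) * ph i.2 (th i.1 * m) := fun i => by ring
    simp only [this, Finset.sum_sub_distrib]
    push_cast
    ring
  have hb : |gg J N δ u (m + 1) - gg J N δ u m - 1 / 2| ≤ 1 / 2 := by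
    rw [e]
    refine (Finset.abs_sum_le_sum_abs _ _).trans ?_
    have h1 : ∀ i ∈ (univ : Finset (Fin J × Bool)), |δ * 4 ^ ((i.1 : ℕ) + 1) *
        (((u i : ℕ) : ℝ) / N) * (ph i.2 (th i.1 * ((m + 1 : ℤ) : ℝ)) - ph i.2 (th i.1 * m))| ≤
        δ * (2 * Real.pi) := by
      intro i _
      have h2 := ph_lip i.2 (th i.1 * ((m + 1 : ℤ) : ℝ)) (th i.1 * m)
      have hth : 0 ≤ th i.1 := by unfold th; positivity
      have h3 : |th i.1 * ((m + 1 : ℤ) : ℝ) - th i.1 * m| = th i.1 := by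
        have : th i.1 * ((m + 1 : ℤ) : ℝ) - th i.1 * m = th i.1 := by push_cast; ring
        rw [this, abs_of_nonneg hth]
      rw [h3] at h2
      have h4 : ((u i : ℕ) : ℝ) / N ≤ 1 := by
        have h5 : ((u i : ℕ) : ℝ) ≤ N := by exact_mod_cast (u i).isLt.le
        exact div_le_one_of_le₀ h5 (Nat.cast_nonneg _)
      have h6 : 0 ≤ ((u i : ℕ) : ℝ) / N := by positivity
      rw [abs_mul, abs_mul, abs_mul, abs_of_nonneg hδ, abs_of_nonneg h6,
        abs_of_nonneg (by positivity : (0 : ℝ) ≤ 4 ^ ((i.1 : ℕ) + 1))]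
      have h7 : δ * 4 ^ ((i.1 : ℕ) + 1) * (((u i : ℕ) : ℝ) / N) ≤
          δ * 4 ^ ((i.1 : ℕ) + 1) * 1 := mul_le_mul_of_nonneg_left h4 (by positivity)
      have h8 : δ * 4 ^ ((i.1 : ℕ) + 1) * 1 * th i.1 = δ * (2 * Real.pi) := by
        unfold th
        field_simp
      rw [← h8]
      exact mul_le_mul h7 h2 (abs_nonneg _) (by positivity)
    refine (Finset.sum_le_sum h1).trans ?_
    rw [Finset.sum_const, card_univ, Fintype.card_prod, Fintype.card_fin, Fintype.card_bool,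
      nsmul_eq_mul]
    push_cast
    linarith
  rw [abs_le] at hb
  constructor <;> linarith [hb.1, hb.2]

lemma floor_steps (g : ℤ → ℝ) (hg : ∀ m, 0 ≤ g (m + 1) - g m ∧ g (m + 1) - g m ≤ 1) :
    Steps (fun m => ⌊g m⌋) := by
  intro m
  have h := hg m
  have h1 : ⌊g m⌋ ≤ ⌊g (m + 1)⌋ := Int.floor_le_floor (by linarith)
  have h2 : ⌊g (m + 1)⌋ ≤ ⌊g m⌋ + 1 := by
    rw [← Int.floor_add_one]
    exact Int.floor_le_floor (by linarith)
  simp only
  omega

lemma floor_zero (g : ℤ → ℝ) (m k : ℤ) (h : ddZ (fun m => ⌊g m⌋) m k = 0) :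
    |dd g m k| < 2 := by
  have a1 := Int.floor_le (g (m + k))
  have a2 := Int.lt_floor_add_one (g (m + k))
  have b1 := Int.floor_le (g (m - k))
  have b2 := Int.lt_floor_add_one (g (m - k))
  have c1 := Int.floor_le (g m)
  have c2 := Int.lt_floor_add_one (g m)
  have h' : ((⌊g (m + k)⌋ : ℝ)) + ⌊g (m - k)⌋ - 2 * ⌊g m⌋ = 0 := by
    unfold ddZ at h
    exact_mod_cast h
  unfold dd
  rw [abs_lt]
  constructor <;> linarith

/-- the coefficients -/
def cf (J N : ℕ) (δ : ℝ) (m k : ℤ) (i : Fin J × Bool) : ℝ :=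
  -(δ * 4 ^ ((i.1 : ℕ) + 1) * (2 * (1 - Real.cos (th i.1 * k))) * ph i.2 (th i.1 * m) / N)

lemma dd_gg (J N : ℕ) (δ : ℝ) (u : Fin J × Bool → Fin N) (m k : ℤ) :
    dd (gg J N δ u) m k = ∑ i : Fin J × Bool, cf J N δ m k i * ((u i : ℕ) : ℝ) := by
  have key : ∀ i : Fin J × Bool, cf J N δ m k i * ((u i : ℕ) : ℝ) =
      δ * 4 ^ ((i.1 : ℕ) + 1) * (((u i : ℕ) : ℝ) / N) * ph i.2 (th i.1 * ((m + k : ℤ) : ℝ)) +
      δ * 4 ^ ((i.1 : ℕ) + 1) * (((u i : ℕ) : ℝ) / N) * ph i.2 (th i.1 * ((m - k : ℤ) : ℝ)) -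
      2 * (δ * 4 ^ ((i.1 : ℕ) + 1) * (((u i : ℕ) : ℝ) / N) * ph i.2 (th i.1 * m)) := by
    intro i
    have h := ph_dd i.2 (th i.1 * m) (th i.1 * k)
    have e1 : th i.1 * ((m + k : ℤ) : ℝ) = th i.1 * m + th i.1 * k := by push_cast; ring
    have e2 : th i.1 * ((m - k : ℤ) : ℝ) = th i.1 * m - th i.1 * k := by push_cast; ring
    rw [e1, e2]
    unfold cf
    linear_combination (-(δ * 4 ^ ((i.1 : ℕ) + 1) * (((u i : ℕ) : ℝ) / N))) * h
  simp only [key, Finset.sum_sub_distrib, Finset.sum_add_distrib]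
  unfold dd gg
  rw [← Finset.mul_sum]
  push_cast
  ring

/-- some coefficient is large -/
lemma coef (n N : ℕ) (δ : ℝ) (hδ : 0 < δ) (hN : 0 < N) (m k : ℤ) (hk : 1 ≤ k)
    (hkn : 2 * k ≤ n) :
    ∃ i : Fin (Nat.log 4 n + 1) × Bool, δ * k / (2 * N) ≤ |cf (Nat.log 4 n + 1) N δ m k i| := by
  obtain ⟨κ, rfl⟩ : ∃ κ : ℕ, k = κ := ⟨k.toNat, by omega⟩
  have hκ : 1 ≤ κ := by exact_mod_cast hk
  have hκn : 2 * κ ≤ n := by exact_mod_cast hkn
  set j := Nat.log 4 (2 * κ) with hj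
  have hjJ : j < Nat.log 4 n + 1 := Nat.lt_succ_of_le (Nat.log_mono_right hκn)
  have p1 : 4 ^ j ≤ 2 * κ := Nat.pow_log_le_self 4 (by omega)
  have p2 : 2 * κ < 4 ^ (j + 1) := Nat.lt_pow_succ_log_self (by norm_num) _
  have p3 : 4 ^ (j + 1) ≤ 8 * κ := by rw [pow_succ]; omega
  have p2r : 2 * (κ : ℝ) < 4 ^ (j + 1) := by exact_mod_cast p2
  have p3r : (4 : ℝ) ^ (j + 1) ≤ 8 * κ := by exact_mod_cast p3
  have hpi := Real.pi_pos
  have hκr : (1 : ℝ) ≤ κ := by exact_mod_cast hκ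
  have hNr : (0 : ℝ) < N := by exact_mod_cast hN
  have t1 : Real.pi / 4 ≤ th j * κ := by
    unfold th
    rw [div_mul_eq_mul_div, le_div_iff₀ (by positivity)]
    nlinarith
  have t2 : th j * κ ≤ Real.pi := by
    unfold th
    rw [div_mul_eq_mul_div, div_le_iff₀ (by positivity)]
    nlinarith
  have hcos : Real.cos (th j * κ) ≤ 0.71 := by
    have h1 : Real.cos (th j * κ) ≤ Real.cos (Real.pi / 4) :=
      Real.cos_le_cos_of_nonneg_of_le_pi (by positivity) t2 t1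
    rw [Real.cos_pi_div_four] at h1
    have h2 : Real.sqrt 2 ≤ 1.42 := by
      rw [Real.sqrt_le_left (by norm_num)]; norm_num
    linarith
  have hphb : ∃ b : Bool, (0.7 : ℝ) ≤ |ph b (th j * m)| := by
    by_contra hcon
    push Not at hcon
    have h1 := hcon false
    have h2 := hcon true
    simp only [ph, Bool.false_eq_true, if_false] at h1
    simp only [ph, if_true] at h2
    have h3 := Real.sin_sq_add_cos_sq (th j * m)
    have h4 : |Real.cos (th j * m)| ^ 2 ≤ 0.7 ^ 2 := by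
      apply pow_le_pow_left₀ (abs_nonneg _) h1.le
    have h5 : |Real.sin (th j * m)| ^ 2 ≤ 0.7 ^ 2 := by
      apply pow_le_pow_left₀ (abs_nonneg _) h2.le
    rw [sq_abs] at h4 h5
    norm_num at h4 h5
    linarith
  obtain ⟨b, hb⟩ := hphb
  refine ⟨(⟨j, hjJ⟩, b), ?_⟩
  unfold cf
  simp only
  rw [abs_neg, abs_div, abs_mul, abs_mul, abs_mul, abs_of_pos hδ, abs_of_pos hNr,
    abs_of_nonneg (by positivity : (0 : ℝ) ≤ 4 ^ (j + 1))]
  have h1 : (0.58 : ℝ) ≤ |2 * (1 - Real.cos (th j * ((κ : ℤ) : ℝ)))| := by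
    rw [Int.cast_natCast]
    refine le_trans ?_ (le_abs_self _)
    linarith
  rw [div_le_div_iff₀ (by positivity) hNr, Int.cast_natCast]
  have h2 : δ * (2 * κ) * 0.58 * 0.7 ≤ δ * 4 ^ (j + 1) *
      |2 * (1 - Real.cos (th j * ((κ : ℤ) : ℝ)))| * |ph b (th j * m)| := by
    have a1 : δ * (2 * κ) ≤ δ * 4 ^ (j + 1) := mul_le_mul_of_nonneg_left p2r.le hδ.le
    have a2 : δ * (2 * κ) * 0.58 ≤ δ * 4 ^ (j + 1) *
      |2 * (1 - Real.cos (th j * ((κ : ℤ) : ℝ)))| :=
      mul_le_mul a1 h1 (by norm_num) (by positivity)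
    exact mul_le_mul a2 hb (by norm_num) (by positivity)
  rw [Int.cast_natCast] at h2
  set Q := δ * 4 ^ (j + 1) * |2 * (1 - Real.cos (th j * (κ : ℝ)))| * |ph b (th j * m)| with hQ
  have h3 : δ * κ * N ≤ (2 * Q) * N := by
    refine mul_le_mul_of_nonneg_right ?_ hNr.le
    nlinarith
  linarith

/-- the number of integers in a short interval -/
lemma fin_count (N : ℕ) (c0 : ℝ) (hc0 : 0 < c0) (T : Finset (Fin N))
    (h : ∀ x ∈ T, ∀ y ∈ T, c0 * (((y : ℕ) : ℝ) - ((x : ℕ) : ℝ)) < 4) :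
    (T.card : ℝ) ≤ 4 / c0 + 1 := by
  have h1 : (T.map Fin.valEmbedding).card ≤ ⌈4 / c0⌉₊ := by
    refine card_le_of_close _ _ ?_
    intro i hi j hj
    rw [mem_map] at hi hj
    obtain ⟨x, hx, rfl⟩ := hi
    obtain ⟨y, hy, rfl⟩ := hj
    have h2 := h x hx y hy
    have h3 : ((y : ℕ) : ℝ) - ((x : ℕ) : ℝ) < 4 / c0 := by
      rw [lt_div_iff₀ hc0]; linarith
    have h4 : 4 / c0 ≤ (⌈4 / c0⌉₊ : ℝ) := Nat.le_ceil _
    have h5 : ((y : ℕ) : ℝ) < ((x : ℕ) : ℝ) + (⌈4 / c0⌉₊ : ℝ) := by linarith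
    have h6 : (y : ℕ) < (x : ℕ) + ⌈4 / c0⌉₊ := by exact_mod_cast h5
    exact h6
  rw [card_map] at h1
  have h2 : (⌈4 / c0⌉₊ : ℝ) < 4 / c0 + 1 := Nat.ceil_lt_add_one (by positivity)
  have h3 : (T.card : ℝ) ≤ (⌈4 / c0⌉₊ : ℝ) := by exact_mod_cast h1
  linarith

open Classical in
/-- the fibre count -/
lemma fibre (ι : Type) [Fintype ι] [DecidableEq ι] (N : ℕ) (c : ι → ℝ) (i0 : ι) (c0 : ℝ)
    (hc0 : 0 < c0) (hc : c0 ≤ |c i0|) :
    (N : ℝ) * ((univ : Finset (ι → Fin N)).filter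
      (fun u => |∑ i, c i * ((u i : ℕ) : ℝ)| < 2)).card ≤
      (Fintype.card (ι → Fin N)) * (4 / c0 + 1) := by
  set e := Equiv.funSplitAt i0 (Fin N) with he
  have hcard : Fintype.card (ι → Fin N) = N * Fintype.card ({j // j ≠ i0} → Fin N) := by
    rw [Fintype.card_congr e, Fintype.card_prod, Fintype.card_fin]
  have hsum : (((univ : Finset (ι → Fin N)).filter
      (fun u => |∑ i, c i * ((u i : ℕ) : ℝ)| < 2)).card : ℝ) ≤
      Fintype.card ({j // j ≠ i0} → Fin N) * (4 / c0 + 1) := by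
    have h1 : ((univ : Finset (ι → Fin N)).filter
      (fun u => |∑ i, c i * ((u i : ℕ) : ℝ)| < 2)).card =
      ∑ v : ({j // j ≠ i0} → Fin N), ((univ : Finset (Fin N)).filter
      (fun x => |∑ i, c i * ((e.symm (x, v) i : ℕ) : ℝ)| < 2)).card := by
      rw [Finset.card_filter]
      simp only [Finset.card_filter]
      rw [Finset.sum_comm, ← Fintype.sum_prod_type' (f := fun x v =>
        if |∑ i, c i * ((e.symm (x, v) i : ℕ) : ℝ)| < 2 then 1 else 0)]
      rw [← Equiv.sum_comp e.symm]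
    rw [h1]
    push_cast
    have h2 : ∀ v ∈ (univ : Finset ({j // j ≠ i0} → Fin N)),
        (((univ : Finset (Fin N)).filter
        (fun x => |∑ i, c i * ((e.symm (x, v) i : ℕ) : ℝ)| < 2)).card : ℝ) ≤ 4 / c0 + 1 := by
      intro v _
      refine fin_count N c0 hc0 _ ?_
      intro x hx y hy
      rw [mem_filter] at hx hy
      have hd : ∑ i, c i * ((e.symm (y, v) i : ℕ) : ℝ) - ∑ i, c i * ((e.symm (x, v) i : ℕ) : ℝ) =
          c i0 * (((y : ℕ) : ℝ) - ((x : ℕ) : ℝ)) := by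
        rw [← Finset.sum_sub_distrib, Finset.sum_eq_single i0]
        · have e1 : ∀ w : Fin N, e.symm (w, v) i0 = w := by
            intro w
            rw [he]
            simp [Equiv.funSplitAt, Equiv.piSplitAt]
          rw [e1, e1]; ring
        · intro i _ hi
          have e1 : ∀ w : Fin N, e.symm (w, v) i = v ⟨i, hi⟩ := by
            intro w
            rw [he]
            simp [Equiv.funSplitAt, Equiv.piSplitAt, hi]
          rw [e1, e1]; ring
        · intro h; exact absurd (mem_univ _) h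
      have a1 := abs_sub (∑ i, c i * ((e.symm (y, v) i : ℕ) : ℝ))
        (∑ i, c i * ((e.symm (x, v) i : ℕ) : ℝ))
      rw [hd, abs_mul] at a1
      have a2 : |c i0| * |((y : ℕ) : ℝ) - ((x : ℕ) : ℝ)| < 4 := by
        have := hx.2
        have := hy.2
        linarith
      have a3 : c0 * |((y : ℕ) : ℝ) - ((x : ℕ) : ℝ)| ≤
          |c i0| * |((y : ℕ) : ℝ) - ((x : ℕ) : ℝ)| :=
        mul_le_mul_of_nonneg_right hc (abs_nonneg _)
      have a4 : c0 * (((y : ℕ) : ℝ) - ((x : ℕ) : ℝ)) ≤ c0 * |((y : ℕ) : ℝ) - ((x : ℕ) : ℝ)| :=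
        mul_le_mul_of_nonneg_left (le_abs_self _) hc0.le
      linarith
    refine (Finset.sum_le_sum h2).trans ?_
    rw [Finset.sum_const, card_univ, nsmul_eq_mul]
  rw [hcard]
  push_cast
  have := mul_le_mul_of_nonneg_left hsum (Nat.cast_nonneg (α := ℝ) N)
  linarith

lemma sum_inv_le (n : ℕ) :
    ∑ k ∈ Icc (1 : ℤ) n, (1 / (k : ℝ)) ≤ 1 + Real.log n := by
  have h := harmonic_le_one_add_log n
  rw [harmonic_eq_sum_Icc] at h
  push_cast at h
  have e : Icc (1 : ℤ) n = (Icc 1 n).image (Nat.cast : ℕ → ℤ) := by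
    ext k
    simp only [mem_Icc, mem_image]
    constructor
    · rintro ⟨h1, h2⟩
      exact ⟨k.toNat, by omega, by omega⟩
    · rintro ⟨a, ⟨h1, h2⟩, rfl⟩
      constructor <;> omega
  rw [e, Finset.sum_image (by intro a _ b _ hab; exact_mod_cast hab)]
  simpa [one_div] using h

open Classical in
/-- the upper bound -/
theorem upper (n : ℕ) (hn : 4 ≤ n) : ∃ S : ℤ → ℤ, Steps S ∧
    ((ZZ S n).card : ℝ) ≤ 2050 * n * (Real.log n) ^ 2 := by
  have hnr : (4 : ℝ) ≤ n := by exact_mod_cast hn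
  have hn0 : 0 < n := by omega
  have hpi := Real.pi_pos
  set J := Nat.log 4 n + 1 with hJ
  have hJr : (1 : ℝ) ≤ J := by rw [hJ]; push_cast; linarith [Nat.cast_nonneg (α := ℝ) (Nat.log 4 n)]
  set δ : ℝ := 1 / (32 * J) with hδdef
  have hδ : 0 < δ := by positivity
  have hδJ : 4 * Real.pi * J * δ ≤ 1 / 2 := by
    rw [hδdef]
    have : 4 * Real.pi * J * (1 / (32 * (J : ℝ))) = Real.pi / 8 := by
      field_simp; ring
    rw [this]
    have := Real.pi_le_four
    linarith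
  set Ω := (Fin J × Bool → Fin n) with hΩ
  have hne : (univ : Finset Ω).Nonempty := ⟨fun _ => ⟨0, hn0⟩, mem_univ _⟩
  set Su : Ω → ℤ → ℤ := fun u m => ⌊gg J n δ u m⌋ with hSu
  have hsteps : ∀ u, Steps (Su u) := fun u =>
    floor_steps _ (gg_step J n δ hδ.le hδJ u)
  set R : Finset (ℤ × ℤ) := ((Icc (0 : ℤ) n) ×ˢ (Icc (1 : ℤ) n)).filter
    (fun p => p.2 ≤ p.1 ∧ p.1 + p.2 ≤ n) with hR
  set B : ℝ := 2050 * n * (Real.log n) ^ 2 with hB
  -- the average
  have hsum : ∑ u : Ω, ((ZZ (Su u) n).card : ℝ) ≤ ∑ _u : Ω, B := by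
    have h1 : ∑ u : Ω, ((ZZ (Su u) n).card : ℝ) = ∑ p ∈ R, (((univ : Finset Ω).filter
        (fun u => ddZ (Su u) p.1 p.2 = 0)).card : ℝ) := by
      have h2 : ∀ u : Ω, ((ZZ (Su u) n).card : ℝ) = ∑ p ∈ R,
          (if ddZ (Su u) p.1 p.2 = 0 then (1 : ℝ) else 0) := by
        intro u
        have h3 : ZZ (Su u) n = R.filter (fun p => ddZ (Su u) p.1 p.2 = 0) := by
          rw [hR, Finset.filter_filter]
          unfold ZZ
          refine Finset.filter_congr fun p _ => ?_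
          tauto
        rw [h3, Finset.card_filter]
        push_cast
        rfl
      simp only [h2]
      rw [Finset.sum_comm]
      refine Finset.sum_congr rfl fun p _ => ?_
      rw [Finset.card_filter]
      push_cast
      rfl
    rw [h1]
    have hnr0 : (0 : ℝ) < n := by linarith
    have h2 : ∀ p ∈ R, (((univ : Finset Ω).filter
        (fun u => ddZ (Su u) p.1 p.2 = 0)).card : ℝ) ≤
        (Fintype.card Ω) * (8 / δ * (1 / (p.2 : ℝ)) + 1 / n) := by
      rintro ⟨m, k⟩ hp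
      rw [hR, mem_filter, mem_product, mem_Icc, mem_Icc] at hp
      obtain ⟨⟨⟨a1, a2⟩, ⟨a3, a4⟩⟩, a5, a6⟩ := hp
      simp only at a1 a2 a3 a4 a5 a6 ⊢
      have hkr : (1 : ℝ) ≤ k := by exact_mod_cast a3
      obtain ⟨i0, hi0⟩ := coef n n δ hδ hn0 m k a3 (by omega)
      have hc0 : 0 < δ * k / (2 * n) := by positivity
      have hf := fibre (Fin J × Bool) n (cf J n δ m k) i0 (δ * k / (2 * n)) hc0 hi0
      have hsub : ((univ : Finset Ω).filter (fun u => ddZ (Su u) m k = 0)).card ≤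
          ((univ : Finset Ω).filter
          (fun u => |∑ i, cf J n δ m k i * ((u i : ℕ) : ℝ)| < 2)).card := by
        refine card_le_card fun u hu => ?_
        rw [mem_filter] at hu ⊢
        refine ⟨mem_univ _, ?_⟩
        rw [← dd_gg]
        exact floor_zero _ m k hu.2
      have hsubr : (((univ : Finset Ω).filter (fun u => ddZ (Su u) m k = 0)).card : ℝ) ≤
          (((univ : Finset Ω).filter
          (fun u => |∑ i, cf J n δ m k i * ((u i : ℕ) : ℝ)| < 2)).card : ℝ) := by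
        exact_mod_cast hsub
      have h3 : (n : ℝ) * (((univ : Finset Ω).filter
          (fun u => ddZ (Su u) m k = 0)).card : ℝ) ≤
          n * ((Fintype.card Ω) * (8 / δ * (1 / (k : ℝ)) + 1 / n)) := by
        have h4 : (n : ℝ) * ((Fintype.card Ω) * (8 / δ * (1 / (k : ℝ)) + 1 / n)) =
            (Fintype.card Ω) * (4 / (δ * k / (2 * n)) + 1) := by
          field_simp
          ring
        rw [h4]
        exact (mul_le_mul_of_nonneg_left hsubr hnr0.le).trans hf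
      exact le_of_mul_le_mul_left h3 hnr0
    refine (Finset.sum_le_sum h2).trans ?_
    rw [← Finset.mul_sum, Finset.sum_const, card_univ, nsmul_eq_mul]
    refine mul_le_mul_of_nonneg_left ?_ (Nat.cast_nonneg _)
    have h5 : ∑ p ∈ R, (8 / δ * (1 / (p.2 : ℝ)) + 1 / n) ≤
        ∑ p ∈ (Icc (0 : ℤ) n) ×ˢ (Icc (1 : ℤ) n), (8 / δ * (1 / (p.2 : ℝ)) + 1 / n) := by
      refine Finset.sum_le_sum_of_subset_of_nonneg (filter_subset _ _) ?_
      rintro ⟨m, k⟩ hp _
      rw [mem_product, mem_Icc, mem_Icc] at hp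
      have hkr : (1 : ℝ) ≤ k := by exact_mod_cast hp.2.1
      simp only
      positivity
    refine h5.trans ?_
    rw [Finset.sum_product]
    have h6 : ∑ k ∈ Icc (1 : ℤ) n, (8 / δ * (1 / (k : ℝ)) + 1 / n) ≤
        8 / δ * (1 + Real.log n) + 1 := by
      rw [Finset.sum_add_distrib, ← Finset.mul_sum, Finset.sum_const, Int.card_Icc,
        nsmul_eq_mul]
      have h7 := mul_le_mul_of_nonneg_left (sum_inv_le n) (by positivity : 0 ≤ 8 / δ)
      have h8 : (((n : ℤ) + 1 - 1).toNat : ℝ) * (1 / (n : ℝ)) = 1 := by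
        have : ((n : ℤ) + 1 - 1).toNat = n := by omega
        rw [this]
        field_simp
      linarith
    have h9 : ∑ _m ∈ Icc (0 : ℤ) n, ∑ k ∈ Icc (1 : ℤ) n, (8 / δ * (1 / (k : ℝ)) + 1 / n) ≤
        (n + 1) * (8 / δ * (1 + Real.log n) + 1) := by
      rw [Finset.sum_const, Int.card_Icc, nsmul_eq_mul]
      have : ((((n : ℤ) + 1 - 0).toNat : ℕ) : ℝ) = n + 1 := by
        have : ((n : ℤ) + 1 - 0).toNat = n + 1 := by omega
        rw [this]; push_cast; ring
      rw [this]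
      exact mul_le_mul_of_nonneg_left h6 (by positivity)
    refine h9.trans ?_
    -- final estimate
    have hlog1 : 1 ≤ Real.log n := by
      have h10 : Real.log 4 ≤ Real.log n := Real.log_le_log (by norm_num) hnr
      have h11 : Real.log 4 = 2 * Real.log 2 := by
        rw [show (4 : ℝ) = 2 ^ 2 by norm_num, Real.log_pow]; norm_num
      have := Real.log_two_gt_d9
      linarith
    have hJle : (J : ℝ) ≤ 2 * Real.log n := by
      have h12 : (4 : ℝ) ^ (Nat.log 4 n) ≤ n := by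
        exact_mod_cast Nat.pow_log_le_self 4 (by omega)
      have h13 := Real.log_le_log (by positivity) h12
      rw [Real.log_pow] at h13
      have h11 : Real.log 4 = 2 * Real.log 2 := by
        rw [show (4 : ℝ) = 2 ^ 2 by norm_num, Real.log_pow]; norm_num
      have h14 := Real.log_two_gt_d9
      have h15 : (0 : ℝ) ≤ Nat.log 4 n := Nat.cast_nonneg _
      have h16 : (Nat.log 4 n : ℝ) * 1 ≤ Nat.log 4 n * Real.log 4 :=
        mul_le_mul_of_nonneg_left (by linarith) h15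
      rw [hJ]
      push_cast
      linarith
    have h17 : 8 / δ = 256 * J := by
      rw [hδdef]
      field_simp
      ring
    rw [h17, hB]
    have h18 : 256 * (J : ℝ) * (1 + Real.log n) ≤ 256 * (2 * Real.log n) * (2 * Real.log n) :=
      mul_le_mul (by linarith) (by linarith) (by linarith) (by linarith)
    have h19 : (1 : ℝ) ≤ Real.log n ^ 2 := by nlinarith
    have h20 : ((n : ℝ) + 1) * (256 * J * (1 + Real.log n) + 1) ≤
        (2 * n) * (1025 * Real.log n ^ 2) := by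
      refine mul_le_mul (by linarith) (by nlinarith) ?_ (by linarith)
      have : 0 ≤ 256 * (J : ℝ) * (1 + Real.log n) := by positivity
      linarith
    linarith
  obtain ⟨u, _, hu⟩ := Finset.exists_le_of_sum_le hne hsum
  exact ⟨Su u, hsteps u, hu⟩

end

end Pool.Agent.MTL
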