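import Pool.Agent.MTL.Def
import Pool.Agent.MTL.Upper

/-!
# From words to prefix counts
-/

namespace Pool.Agent.MTL

open Finset

/-- prefix counts of `true` -/
def pre (w : List Bool) (i : ℤ) : ℤ := ((w.take i.toNat).count true : ℕ)

lemma count_take_succ (w : List Bool) (a : ℕ) :
    (w.take (a + 1)).count true = (w.take a).count true ∨
    (w.take (a + 1)).count true = (w.take a).count true + 1 := by
  rw [List.take_add, List.count_append]
  have h1 : ((w.drop a).take 1).count true ≤ 1 := by
    refine List.count_le_length.trans ?_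
    rw [List.length_take]
    omega
  omega

lemma pre_steps (w : List Bool) : Steps (pre w) := by
  intro i
  unfold pre
  rcases lt_or_ge i 0 with h | h
  · have h1 : (i + 1).toNat = 0 := by omega
    have h2 : i.toNat = 0 := by omega
    rw [h1, h2]
    simp
  · have h1 : (i + 1).toNat = i.toNat + 1 := by omega
    rw [h1]
    rcases count_take_succ w i.toNat with h2 | h2
    · rw [h2]; simp
    · rw [h2]; right; push_cast; ring

lemma count_bool (l : List Bool) : l.count true + l.count false = l.length := by
  induction l with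
  | nil => simp
  | cons a l ih => cases a <;> simp <;> omega

lemma take_count (w : List Bool) (a k : ℕ) :
    ((w.drop a).take k).count true + (w.take a).count true = (w.take (a + k)).count true := by
  rw [List.take_add, List.count_append]
  omega

/-- occurrences are zeros of second differences -/
lemma square_iff (w : List Bool) (m k : ℕ) (hk : 1 ≤ k) (hkm : k ≤ m) (hmn : m + k ≤ w.length) :
    IsAbelianSquare (factor w (m - k + 1) (m + k)) ↔ ddZ (pre w) m k = 0 := by
  have hdd : ddZ (pre w) m k = 0 ↔
      (w.take (m + k)).count true + (w.take (m - k)).count true =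
        2 * (w.take m).count true := by
    unfold ddZ pre
    have h1 : ((m : ℤ) + k).toNat = m + k := by omega
    have h2 : ((m : ℤ) - k).toNat = m - k := by omega
    have h3 : (m : ℤ).toNat = m := by omega
    rw [h1, h2, h3]
    constructor
    · intro h; omega
    · intro h; omega
  have hf : factor w (m - k + 1) (m + k) =
      (w.drop (m - k)).take k ++ (w.drop m).take k := by
    unfold factor
    have h1 : m - k + 1 - 1 = m - k := by omega
    have h2 : m + k + 1 - (m - k + 1) = k + k := by omega
    rw [h1, h2, List.take_add, List.drop_drop]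
    have h3 : m - k + k = m := by omega
    rw [h3]
  have c1 := take_count w (m - k) k
  have c2 := take_count w m k
  have h3 : m - k + k = m := by omega
  rw [h3] at c1
  have l1 : ((w.drop (m - k)).take k).length = k := by
    rw [List.length_take, List.length_drop]; omega
  have l2 : ((w.drop m).take k).length = k := by
    rw [List.length_take, List.length_drop]; omega
  rw [hdd, hf]
  constructor
  · rintro ⟨u, v, hu, hx, hc⟩
    have hlen : u.length = v.length := by
      rw [← count_bool u, ← count_bool v, hc true, hc false]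
    have h4 := congrArg List.length hx
    rw [List.length_append, List.length_append, l1, l2] at h4
    have h5 : u.length = k := by omega
    have h6 := List.append_inj hx (by rw [l1, h5])
    have h7 := hc true
    rw [← h6.1, ← h6.2] at h7
    omega
  · intro h
    refine ⟨_, _, ?_, rfl, ?_⟩
    · intro h0
      rw [h0] at l1
      simp at l1
      omega
    · have ht : ((w.drop (m - k)).take k).count true = ((w.drop m).take k).count true := by
        omega
      intro c
      cases c
      · have b1 := count_bool ((w.drop (m - k)).take k)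
        have b2 := count_bool ((w.drop m).take k)
        omega
      · exact ht

lemma even_len (w : List Bool) (i j : ℕ) (hi : 1 ≤ i) (hij : i < j) (hj : j ≤ w.length)
    (h : IsAbelianSquare (factor w i j)) :
    ∃ m k : ℕ, 1 ≤ k ∧ k ≤ m ∧ m + k ≤ w.length ∧ i = m - k + 1 ∧ j = m + k := by
  obtain ⟨u, v, hu, hx, hc⟩ := h
  have hlen : u.length = v.length := by
    rw [← count_bool u, ← count_bool v, hc true, hc false]
  have h4 := congrArg List.length hx
  unfold factor at h4
  rw [List.length_append, List.length_take, List.length_drop] at h4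
  refine ⟨i - 1 + u.length, u.length, ?_, ?_, ?_, ?_, ?_⟩ <;> omega

/-- the number of occurrences -/
lemma occ_eq (w : List Bool) : occ w = (ZZ (pre w) w.length).card := by
  have hset : {p : ℕ × ℕ | 1 ≤ p.1 ∧ p.1 < p.2 ∧ p.2 ≤ w.length ∧
      IsAbelianSquare (factor w p.1 p.2)} =
      (fun p : ℤ × ℤ => ((p.1 - p.2 + 1).toNat, (p.1 + p.2).toNat)) ''
        (ZZ (pre w) w.length : Set (ℤ × ℤ)) := by
    ext ⟨i, j⟩
    simp only [Set.mem_ofPred_eq, Set.mem_image, SetLike.mem_coe]
    constructor
    · rintro ⟨h1, h2, h3, h4⟩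
      obtain ⟨m, k, a1, a2, a3, a4, a5⟩ := even_len w i j h1 h2 h3 h4
      refine ⟨((m : ℤ), (k : ℤ)), ?_, ?_⟩
      · rw [mem_ZZ]
        refine ⟨by omega, by omega, by omega, ?_⟩
        rw [← square_iff w m k a1 a2 a3, ← a4, ← a5]
        exact h4
      · simp only
        rw [Prod.mk.injEq]
        constructor <;> omega
    · rintro ⟨⟨m, k⟩, hp, he⟩
      rw [mem_ZZ] at hp
      simp only [Prod.mk.injEq] at he
      obtain ⟨M, rfl⟩ : ∃ M : ℕ, m = M := ⟨m.toNat, by omega⟩
      obtain ⟨K, rfl⟩ : ∃ K : ℕ, k = K := ⟨k.toNat, by omega⟩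
      obtain ⟨h1, h2, h3, h4⟩ := hp
      have b1 : 1 ≤ K := by omega
      have b2 : K ≤ M := by omega
      have b3 : M + K ≤ w.length := by omega
      have e1 : i = M - K + 1 := by omega
      have e2 : j = M + K := by omega
      refine ⟨by omega, by omega, by omega, ?_⟩
      rw [e1, e2, square_iff w M K b1 b2 b3]
      exact h4
  unfold occ
  rw [hset, Set.InjOn.ncard_image, Set.ncard_coe_finset]
  rintro ⟨m, k⟩ hp ⟨m', k'⟩ hp' he
  rw [SetLike.mem_coe, mem_ZZ] at hp hp'
  simp only [Prod.mk.injEq] at he ⊢
  constructor <;> omega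

/-- the word with given prefix counts -/
def word (S : ℤ → ℤ) (n : ℕ) : List Bool :=
  (List.range n).map (fun i : ℕ => decide (S (i + 1) - S i = 1))

lemma word_length (S : ℤ → ℤ) (n : ℕ) : (word S n).length = n := by simp [word]

lemma word_count {S : ℤ → ℤ} (hS : Steps S) (a : ℕ) :
    (((word S a).count true : ℕ) : ℤ) = S a - S 0 := by
  induction a with
  | zero => simp [word]
  | succ a ih =>
    unfold word at ih ⊢
    rw [List.range_succ, List.map_append, List.count_append]
    push_cast
    rw [ih]
    have h := hS a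
    by_cases hc : S ((a : ℤ) + 1) - S a = 1
    · have : List.count true (List.map (fun i : ℕ => decide (S (i + 1) - S i = 1)) [a]) = 1 := by
        simp [hc]
      rw [this]
      push_cast
      omega
    · have : List.count true (List.map (fun i : ℕ => decide (S (i + 1) - S i = 1)) [a]) = 0 := by
        simp [hc]
      rw [this]
      push_cast
      omega

lemma word_pre {S : ℤ → ℤ} (hS : Steps S) (n : ℕ) (i : ℤ) (h0 : 0 ≤ i) (hn : i ≤ n) :
    pre (word S n) i = S i - S 0 := by
  obtain ⟨a, rfl⟩ : ∃ a : ℕ, i = a := ⟨i.toNat, by omega⟩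
  have ha : a ≤ n := by omega
  unfold pre
  have h1 : ((a : ℤ)).toNat = a := by omega
  rw [h1]
  have h2 : (word S n).take a = word S a := by
    unfold word
    rw [← List.map_take, List.take_range, Nat.min_eq_left ha]
  rw [h2]
  exact word_count hS a

lemma word_ZZ {S : ℤ → ℤ} (hS : Steps S) (n : ℕ) : ZZ (pre (word S n)) n = ZZ S n := by
  ext ⟨m, k⟩
  rw [mem_ZZ, mem_ZZ]
  constructor
  · rintro ⟨h1, h2, h3, h4⟩
    refine ⟨h1, h2, h3, ?_⟩
    unfold ddZ at h4 ⊢
    rw [word_pre hS n _ (by omega) (by omega), word_pre hS n _ (by omega) (by omega),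
      word_pre hS n _ (by omega) (by omega)] at h4
    omega
  · rintro ⟨h1, h2, h3, h4⟩
    refine ⟨h1, h2, h3, ?_⟩
    unfold ddZ at h4 ⊢
    rw [word_pre hS n _ (by omega) (by omega), word_pre hS n _ (by omega) (by omega),
      word_pre hS n _ (by omega) (by omega)]
    omega

/-- the minimum is attained -/
lemma MTL_attained (n : ℕ) : ∃ w : List Bool, w.length = n ∧ occ w = MTL n := by
  have hne : {N : ℕ | ∃ w : List Bool, w.length = n ∧ occ w = N}.Nonempty :=
    ⟨occ (List.replicate n true), List.replicate n true, by simp, rfl⟩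
  exact Nat.sInf_mem hne

/-- the minimum is a lower bound -/
lemma MTL_le (w : List Bool) : MTL w.length ≤ occ w :=
  Nat.sInf_le ⟨w, rfl, rfl⟩

theorem MTL_lower : ∃ c : ℝ, 0 < c ∧ ∀ n : ℕ, 4 ≤ n → c * n * Real.log n ≤ MTL n := by
  obtain ⟨c, hc, h⟩ := lower
  refine ⟨c, hc, fun n hn => ?_⟩
  obtain ⟨w, hw, ho⟩ := MTL_attained n
  have h1 := h (pre w) (pre_steps w) n hn
  rw [← ho, occ_eq, hw]
  exact h1

theorem MTL_upper (n : ℕ) (hn : 4 ≤ n) : (MTL n : ℝ) ≤ 2050 * n * Real.log n ^ 2 := by
  obtain ⟨S, hS, hcard⟩ := upper n hn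
  have h1 := MTL_le (word S n)
  rw [occ_eq, word_length, word_ZZ hS] at h1
  have h2 : (MTL n : ℝ) ≤ (ZZ S n).card := by exact_mod_cast h1
  linarith

end Pool.Agent.MTL
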